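import Mathlib
set_option autoImplicit false

/-!
Closed oriented triangulated surfaces as combinatorial maps, their dual graphs, face-width,
and the edgewise subdivision.
-/

namespace ESub

/-- A triangulation of a closed oriented surface, given by its darts (directed edges):
inv d is the dart d with its direction reversed, and next d is the dart that follows d
on the boundary of the triangle on the left of d. Each edge is a pair of darts d, inv d,
and each face is a triple of darts d, next d, next (next d). Multiple edges are allowed. -/
structure Triangulation (D : Type) where
  inv : D → D
  next : D → D
  inv_inv : ∀ d, inv (inv d) = d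
  inv_ne : ∀ d, inv d ≠ d
  next_next_next : ∀ d, next (next (next d)) = d
  next_ne : ∀ d, next d ≠ d

variable {D : Type}

namespace Triangulation

/-- the next dart with the same origin (rotation around the origin of d) -/
def rot (T : Triangulation D) (d : D) : D := T.inv (T.next (T.next d))

/-- the darts d and e have the same origin (a vertex is a class of darts with the same origin) -/
def SameOrigin (T : Triangulation D) (d e : D) : Prop := ∃ n : ℕ, T.rot^[n] d = e

/-- no edge has both its ends at one vertex -/
def Loopless (T : Triangulation D) : Prop := ∀ d, ¬ T.SameOrigin d (T.inv d)

/-- The dual graph (one vertex for each face, one edge crossing each edge) is 3-edge-colourable: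
the edges of T can be coloured with 3 colours so that the three edges of each face
have three different colours. -/
def DualThreeEdgeColourable (T : Triangulation D) : Prop :=
  ∃ c : D → Fin 3, (∀ d, c (T.inv d) = c d) ∧
    ∀ d, c d ≠ c (T.next d) ∧ c d ≠ c (T.next (T.next d)) ∧ c (T.next d) ≠ c (T.next (T.next d))

end Triangulation

/-! ### Closed curves and face-width -/

/-- A labelling of the darts by elements of a group that is trivial along each edge taken forth and back
and around each face. -/
structure IsFlat (T : Triangulation D) {G : Type} [Group G] (g : D → G) : Prop where
  inv : ∀ d, g (T.inv d) = (g d)⁻¹
  face : ∀ d, g d * g (T.next d) * g (T.next (T.next d)) = 1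

namespace Triangulation

/-- A step x = (d, s) of a curve runs from the origin of d through the face of d to the origin of
next^[s] d, another corner of this face (the same corner for s = 0). This is the dart next^[s] d. -/
def stepEnd (T : Triangulation D) (x : D × Fin 3) : D := T.next^[x.2.val] x.1

/-- the value of a step: the product of the labels of the darts d, next d, ..., s of them -/
def stepVal (T : Triangulation D) {G : Type} [Group G] (g : D → G) (x : D × Fin 3) : G :=
  ((List.range x.2.val).map fun i => g (T.next^[i] x.1)).prod

/-- A closed curve that meets the edges and vertices of T only in k vertices, and runs through the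
inside of a face between two of them: a k-periodic sequence of steps, each of which starts at the
vertex where the one before it ends. -/
structure IsClosedCurve (T : Triangulation D) (k : ℕ) (w : ℕ → D × Fin 3) : Prop where
  periodic : ∀ i, w (i + k) = w i
  glue : ∀ i, T.SameOrigin (T.stepEnd (w i)) (w (i + 1)).1

/-- The curve is contractible: its value is trivial for all flat labellings in all groups, that is,
its value is trivial in the group with one generator for each dart and the relations
d * inv d = 1 and d * next d * next (next d) = 1. -/
def IsContractible (T : Triangulation D) (k : ℕ) (w : ℕ → D × Fin 3) : Prop :=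
  ∀ (G : Type) [Group G] (g : D → G), IsFlat T g →
    ((List.range k).map fun i => T.stepVal g (w i)).prod = 1

/-- The face-width of T is at least n: every closed curve that meets T in fewer than n points
is contractible. -/
def FaceWidthAtLeast (T : Triangulation D) (n : ℕ) : Prop :=
  ∀ k < n, ∀ w, T.IsClosedCurve k w → T.IsContractible k w

end Triangulation

/-! ### Edgewise subdivision -/

/-- Darts of the edgewise subdivision. Let d be a dart from x to y of a face xyz. The face is cut
into small triangles by the points with barycentric coordinates (i, j, k) / m (for z, x, y).
up d i j k is the side parallel to d (and directed as d) of the small triangle with the corners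
(i+1, j, k), (i, j+1, k), (i, j, k+1); down d i j k is the side parallel to d (and directed against d)
of the small triangle with the corners (i, j+1, k+1), (i+1, j, k+1), (i+1, j+1, k). -/
inductive SubDart (D : Type) (m : ℕ) : Type
  | up (d : D) (i j k : ℕ) (h : i + j + k + 1 = m) : SubDart D m
  | down (d : D) (i j k : ℕ) (h : i + j + k + 2 = m) : SubDart D m

namespace Triangulation

/-- reversal of a dart of the subdivision: the small side up d (i+1) j k is the same segment
as down d i j k; a small side up d 0 j k lies on the edge d, and is up (inv d) 0 k j
seen from the other side -/
def subInv (T : Triangulation D) (m : ℕ) : SubDart D m → SubDart D m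
  | .up d 0 j k h => .up (T.inv d) 0 k j (by omega)
  | .up d (i + 1) j k h => .down d i j k (by omega)
  | .down d i j k h => .up d (i + 1) j k (by omega)

/-- the next side of a small triangle -/
def subNext (T : Triangulation D) (m : ℕ) : SubDart D m → SubDart D m
  | .up d i j k h => .up (T.next d) j k i (by omega)
  | .down d i j k h => .down (T.next d) j k i (by omega)

/-- The m-fold edgewise subdivision of T: each edge is cut into m edges, and each face, by the lines
parallel to its sides through the new points, into m ^ 2 faces. -/
def subdivide (T : Triangulation D) (m : ℕ) : Triangulation (SubDart D m) where
  inv := T.subInv m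
  next := T.subNext m
  inv_inv := by
    rintro (⟨d, i, j, k, h⟩ | ⟨d, i, j, k, h⟩)
    · cases i with
      | zero => simp [subInv, T.inv_inv]
      | succ i => simp [subInv]
    · simp [subInv]
  inv_ne := by
    rintro (⟨d, i, j, k, h⟩ | ⟨d, i, j, k, h⟩)
    · cases i with
      | zero => simp [subInv, T.inv_ne]
      | succ i => simp [subInv]
    · simp [subInv]
  next_next_next := by
    rintro (⟨d, i, j, k, h⟩ | ⟨d, i, j, k, h⟩) <;> simp [subNext, T.next_next_next]
  next_ne := by
    rintro (⟨d, i, j, k, h⟩ | ⟨d, i, j, k, h⟩) <;> simp [subNext, T.next_ne]

end Triangulation

end ESub
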