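import Pool.Agent.Work.MP_a2fb93_sub.Glue
set_option autoImplicit false

namespace ESub

variable {D : Type}

theorem rot_injective (T : Triangulation D) : Function.Injective T.rot := by
  intro a b h
  have h1 : T.next (T.next a) = T.next (T.next b) := by
    have := congrArg T.inv h
    simpa [Triangulation.rot, T.inv_inv] using this
  have := congrArg T.next h1
  simpa [T.next_next_next] using this

/-- the rotation as a permutation -/
noncomputable def rotPerm [Finite D] (T : Triangulation D) : Equiv.Perm D :=
  Equiv.ofBijective T.rot ((Finite.injective_iff_bijective).1 (rot_injective T))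

/-- Three colours on the cycles of a permutation s without fixed points: consecutive elements get
different colours, unless one of them is in M, and the colour 2 is used only in cycles that avoid M. -/
theorem exists_cycle_colouring [Finite D] (s : Equiv.Perm D) (hs : ∀ d, s d ≠ d) (M : D → Prop) :
    ∃ χ : D → Fin 3, (∀ d, ¬ M d → ¬ M (s d) → χ d ≠ χ (s d)) ∧
      ∀ d, χ d = 2 → ∀ e, s.SameCycle d e → ¬ M e := by
  classical
  -- a base point of each cycle, in M when possible
  have hbase : ∀ q : Quotient (Equiv.Perm.SameCycle.setoid s), ∃ b : D, (⟦b⟧ : Quotient (Equiv.Perm.SameCycle.setoid s)) = q ∧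
      ((∃ e, (⟦e⟧ : Quotient (Equiv.Perm.SameCycle.setoid s)) = q ∧ M e) → M b) := by
    intro q
    by_cases h : ∃ e, (⟦e⟧ : Quotient (Equiv.Perm.SameCycle.setoid s)) = q ∧ M e
    · obtain ⟨e, he, hM⟩ := h
      exact ⟨e, he, fun _ => hM⟩
    · obtain ⟨b, hb⟩ := q.exists_rep
      exact ⟨b, hb, fun h' => absurd h' h⟩
  choose b hb hbM using hbase
  let β : D → D := fun d => b ⟦d⟧
  have hβ : ∀ d, s.SameCycle (β d) d := fun d => Quotient.exact (hb ⟦d⟧)
  have hβs : ∀ d, β (s d) = β d := by
    intro d
    show b ⟦s d⟧ = b ⟦d⟧
    congr 1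
    apply Quotient.sound
    show s.SameCycle (s d) d
    exact (Equiv.Perm.sameCycle_apply_left).2 (Equiv.Perm.SameCycle.refl _ _)
  have hex : ∀ d, ∃ n : ℕ, (s ^ n) (β d) = d := by
    intro d
    obtain ⟨n, hn⟩ := (hβ d).exists_nat_pow_eq
    exact ⟨n, hn⟩
  let idx : D → ℕ := fun d => Nat.find (hex d)
  have hidx : ∀ d, (s ^ idx d) (β d) = d := fun d => Nat.find_spec (hex d)
  have hmin : ∀ d n, (s ^ n) (β d) = d → idx d ≤ n := fun d n h => Nat.find_min' (hex d) h
  -- length of the cycle, as first return of the base point
  have hidx_base : ∀ d, β d = d → idx d = 0 := by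
    intro d h
    have := hmin d 0 (by simpa using h)
    omega
  have hidx_succ : ∀ d, β d ≠ s d → idx (s d) = idx d + 1 := by
    intro d h
    apply le_antisymm
    · apply hmin
      rw [hβs, pow_succ', Equiv.Perm.mul_apply, hidx]
    · by_contra hcon
      have h1 : (s ^ idx (s d)) (β d) = s d := by
        have := hidx (s d)
        rwa [hβs] at this
      rcases h2 : idx (s d) with _ | n
      · rw [h2] at h1
        exact h (by simpa using h1)
      · rw [h2, pow_succ', Equiv.Perm.mul_apply] at h1
        have h3 := hmin d n (s.injective h1)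
        omega
  let χ : D → Fin 3 := fun d =>
    if (β d = d ∧ ¬ M d ∧ idx (s⁻¹ d) % 2 = 0) then 2 else if idx d % 2 = 0 then 0 else 1
  refine ⟨χ, ?_, ?_⟩
  · intro d hd hsd
    by_cases h : β d = s d
    · -- s d is the base point
      have h1 : idx (s d) = 0 := hidx_base _ (by rw [hβs, h])
      have h2 : β d ≠ d := by rw [h]; exact hs d
      by_cases h3 : idx d % 2 = 0
      · have e1 : χ (s d) = 2 := by
          simp only [χ]
          rw [if_pos]
          refine ⟨by rw [hβs, h], hsd, ?_⟩
          simpa using h3
        have e2 : χ d ≠ 2 := by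
          simp only [χ, h2, false_and, if_false]
          split_ifs <;> decide
        rw [e1]
        exact e2
      · have e1 : χ (s d) = 0 := by
          simp only [χ]
          rw [if_neg, if_pos]
          · rw [h1]
          · rintro ⟨_, _, h4⟩
            exact h3 (by simpa using h4)
        have e2 : χ d = 1 := by
          simp only [χ, h2, false_and, if_false, h3]
        rw [e1, e2]
        decide
    · have h1 := hidx_succ d h
      have h2 : β (s d) ≠ s d := by rw [hβs]; exact h
      have e1 : χ (s d) = if idx (s d) % 2 = 0 then 0 else 1 := by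
        simp only [χ, h2, false_and, if_false]
      rw [e1, h1]
      simp only [χ]
      by_cases h3 : idx d % 2 = 0
      · have h4 : ¬ ((idx d + 1) % 2 = 0) := by omega
        rw [if_neg h4]
        split_ifs <;> decide
      · have h4 : (idx d + 1) % 2 = 0 := by omega
        rw [if_pos h4]
        split_ifs <;> decide
  · intro d hd e hde hM
    have h1 : β d = d ∧ ¬ M d := by
      by_contra hcon
      have h2 : χ d = if idx d % 2 = 0 then 0 else 1 := by
        simp only [χ]
        rw [if_neg]
        rintro ⟨h3, h4, _⟩
        exact hcon ⟨h3, h4⟩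
      rw [h2] at hd
      split_ifs at hd <;> exact absurd hd (by decide)
    apply h1.2
    rw [← h1.1]
    apply hbM
    refine ⟨e, Quotient.sound ?_, hM⟩
    exact hde.symm

theorem sameOrigin_iff [Finite D] (T : Triangulation D) (d e : D) :
    T.SameOrigin d e ↔ (rotPerm T).SameCycle d e := by
  have hp : ∀ n : ℕ, ∀ d, T.rot^[n] d = ((rotPerm T) ^ n) d := by
    intro n
    induction n with
    | zero => intro d; rfl
    | succ n ih =>
      intro d
      rw [Function.iterate_succ_apply', ih, pow_succ', Equiv.Perm.mul_apply]
      rfl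
  constructor
  · rintro ⟨n, hn⟩
    rw [hp] at hn
    exact ⟨n, by simpa using hn⟩
  · intro h
    obtain ⟨n, hn⟩ := h.exists_nat_pow_eq
    exact ⟨n, by rw [hp]; exact hn⟩

theorem rot_ne (T : Triangulation D) (hT : T.Loopless) (d : D) : T.rot d ≠ d := by
  intro h
  -- then the third side of the face of d is a loop
  have h1 : T.next (T.next d) = T.inv d := by
    have h2 : T.inv (T.next (T.next d)) = d := h
    rw [← T.inv_inv (T.next (T.next d)), h2]
  apply hT (T.next d)
  refine ⟨2, ?_⟩
  show T.rot (T.rot (T.next d)) = T.inv (T.next d)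
  have h3 : T.rot (T.next d) = T.inv d := by simp [Triangulation.rot, T.next_next_next]
  rw [h3, ← h1]
  simp [Triangulation.rot, T.next_next_next]

theorem exists_ends [Finite D] (T : Triangulation D) (hT : T.Loopless) (M : D → Prop) :
    ∃ χ, IsEnds T M χ := by
  obtain ⟨χ, h1, h2⟩ := exists_cycle_colouring (rotPerm T) (fun d => rot_ne T hT d) M
  refine ⟨χ, fun d hd hr => h1 d hd hr, ?_, ?_⟩
  · intro d hd h
    exact h2 d h (T.rot d) ⟨1, rfl⟩ hd
  · intro d hd h
    refine h2 (T.rot d) h d ?_ hd
    exact Equiv.Perm.SameCycle.symm ⟨1, rfl⟩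

end ESub
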