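import Pool.Agent.Work.MP_a2fb93_sub.Width
import Pool.Agent.Work.MP_a2fb93_sub.Ends
set_option autoImplicit false

namespace ESub

variable {D : Type}

theorem isVertex_sameOrigin [Finite D] (T : Triangulation D) (hT : T.Loopless) (d : D) :
    IsVertex T (T.SameOrigin d) := by
  constructor
  · intro e
    rw [sameOrigin_iff, sameOrigin_iff]
    exact Equiv.Perm.sameCycle_apply_right (f := rotPerm T)
  · intro e h1 h2
    apply hT e
    rw [sameOrigin_iff] at h1 h2 ⊢
    exact h1.symm.trans h2

section
variable {T : Triangulation D} {m : ℕ} {X : D → Prop}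

theorem JX_same (hX : IsVertex T X) {x y : SubDart D m} (h : (T.subdivide m).SameOrigin x y) :
    JX T m X y = JX T m X x := by
  obtain ⟨n, rfl⟩ := h
  induction n with
  | zero => rfl
  | succ n ih => rw [Function.iterate_succ_apply', JX_rot hX, ih]

theorem QX_same {G : Type} [Group G] (hX : IsVertex T X) (g : SubDart D m → G)
    (hg : IsFlat (T.subdivide m) g) {x y : SubDart D m}
    (h : (T.subdivide m).SameOrigin x y) (hx : 1 ≤ JX T m X x) : QX T m X g y = QX T m X g x := by
  obtain ⟨n, rfl⟩ := h
  induction n with
  | zero => rfl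
  | succ n ih =>
    rw [Function.iterate_succ_apply', QX_rot hX g hg, ih]
    rw [JX_same hX ⟨n, rfl⟩]
    exact hx

theorem Inner_same {x y : SubDart D m} (h : (T.subdivide m).SameOrigin x y) : Inner m y ↔ Inner m x := by
  obtain ⟨n, rfl⟩ := h
  induction n with
  | zero => rfl
  | succ n ih => rw [Function.iterate_succ_apply', Inner_rot, ih]

theorem FX_same {x y : SubDart D m} (h : (T.subdivide m).SameOrigin x y) (hx : Inner m x) :
    FX T m X y ↔ FX T m X x := by
  obtain ⟨n, rfl⟩ := h
  induction n with
  | zero => rfl
  | succ n ih =>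
    rw [Function.iterate_succ_apply', FX_rot _ ((Inner_same ⟨n, rfl⟩).2 hx), ih]

theorem step_J (hX : IsVertex T X) (x : SubDart D m × Fin 3) :
    JX T m X ((T.subdivide m).stepEnd x) ≤ JX T m X x.1 + 1 ∧
    JX T m X x.1 ≤ JX T m X ((T.subdivide m).stepEnd x) + 1 := by
  obtain ⟨d, s⟩ := x
  obtain ⟨h1, h2, h3, h4⟩ := JX_next hX d
  fin_cases s
  · exact ⟨Nat.le_succ _, Nat.le_succ _⟩
  · exact ⟨h1, h2⟩
  · exact ⟨h3, h4⟩

theorem step_F (x : SubDart D m × Fin 3) :
    FX T m X ((T.subdivide m).stepEnd x) ↔ FX T m X x.1 := by
  obtain ⟨d, s⟩ := x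
  fin_cases s
  · exact Iff.rfl
  · exact FX_next d
  · exact (FX_next _).trans (FX_next d)

theorem step_Q {G : Type} [Group G] (hX : IsVertex T X) (g : SubDart D m → G)
    (hg : IsFlat (T.subdivide m) g) (x : SubDart D m × Fin 3)
    (hF : FX T m X x.1) :
    QX T m X g ((T.subdivide m).stepEnd x) = QX T m X g x.1 * (T.subdivide m).stepVal g x := by
  obtain ⟨d, s⟩ := x
  fin_cases s
  · simp [Triangulation.stepEnd, Triangulation.stepVal]
  · have h1 := QX_next hX g hg d hF
    simpa [Triangulation.stepEnd, Triangulation.stepVal] using h1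
  · have h1 := QX_next hX g hg d hF
    have h2 := QX_next hX g hg ((T.subdivide m).next d) ((FX_next d).2 hF)
    have h3 : (T.subdivide m).stepVal g (d, 2) = g d * g ((T.subdivide m).next d) := by
      simp [Triangulation.stepVal, List.range_succ]
    show QX T m X g ((T.subdivide m).next ((T.subdivide m).next d)) =
      QX T m X g d * (T.subdivide m).stepVal g (d, 2)
    rw [h3, h2, h1, mul_assoc]

/-- a closed curve that stays close to a vertex has trivial value -/
theorem value_of_JX {G : Type} [Group G] (hX : IsVertex T X) (g : SubDart D m → G)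
    (hg : IsFlat (T.subdivide m) g) {k : ℕ} {w : ℕ → SubDart D m × Fin 3}
    (hw : (T.subdivide m).IsClosedCurve k w) (t : ℕ)
    (hJ : ∀ n ≤ k, 1 ≤ JX T m X (w (t + n)).1) :
    ((List.range k).map fun i => (T.subdivide m).stepVal g (w (t + i))).prod = 1 := by
  have key : ∀ n ≤ k, QX T m X g (w (t + n)).1 = QX T m X g (w t).1 *
      ((List.range n).map fun i => (T.subdivide m).stepVal g (w (t + i))).prod := by
    intro n
    induction n with
    | zero => intro _; simp
    | succ n ih =>
      intro hn
      have h1 := ih (by omega)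
      have h2 := step_Q hX g hg (w (t + n)) (FX_of_JX (hJ n (by omega)))
      have h3 := hw.glue (t + n)
      have h4 : JX T m X ((T.subdivide m).stepEnd (w (t + n))) = JX T m X (w (t + n + 1)).1 :=
        (JX_same hX h3).symm
      have h5 := QX_same hX g hg h3 (by rw [h4]; exact hJ (n + 1) hn)
      rw [List.range_succ, List.map_append, List.prod_append]
      simp only [List.map_cons, List.map_nil, List.prod_cons, List.prod_nil, mul_one]
      rw [← mul_assoc, ← h1, ← h2]
      exact h5
  have h := key k le_rfl
  rw [hw.periodic t] at h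
  exact (mul_eq_left.1 h.symm)

end

/-- rotating a periodic product -/
theorem prod_rotate {G : Type} [Group G] (k : ℕ) (v : ℕ → G) (hv : ∀ i, v (i + k) = v i) (t : ℕ)
    (h : ((List.range k).map fun i => v (t + i)).prod = 1) : ((List.range k).map v).prod = 1 := by
  -- P n = v 0 * ... * v (n - 1)
  have split : ∀ a b, ((List.range (a + b)).map v).prod =
      ((List.range a).map v).prod * ((List.range b).map fun i => v (a + i)).prod := by
    intro a b
    rw [List.range_add, List.map_append, List.prod_append, List.map_map]
    rfl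
  have h1 := split t k
  have h2 := split k t
  have h3 : ((List.range t).map fun i => v (k + i)).prod = ((List.range t).map v).prod := by
    congr 1
    apply List.map_congr_left
    intro i _
    rw [add_comm]
    exact hv i
  rw [h, mul_one] at h1
  rw [add_comm k t, h1, h3] at h2
  exact (mul_eq_right.1 h2.symm)

theorem faceWidth_subdivide [Finite D] (T : Triangulation D) (hT : T.Loopless) (m : ℕ) :
    (T.subdivide m).FaceWidthAtLeast m := by
  intro k hk w hw G _ g hg
  by_cases hbig : ∃ t, m ≤ 2 * oa (w t).1 ∨ m ≤ 2 * ob (w t).1 ∨ m ≤ 2 * oc (w t).1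
  · obtain ⟨t, ht⟩ := hbig
    -- a vertex close to the origin of the dart number t
    have hv : ∃ X : D → Prop, IsVertex T X ∧ m ≤ 2 * JX T m X (w t).1 := by
      classical
      rcases ht with ht | ht | ht
      · refine ⟨T.SameOrigin (T.next (T.next (dirD (w t).1))), isVertex_sameOrigin T hT _, ?_⟩
        have hX := isVertex_sameOrigin T hT (T.next (T.next (dirD (w t).1)))
        have h0 : T.SameOrigin (T.next (T.next (dirD (w t).1))) (T.next (T.next (dirD (w t).1))) := ⟨0, rfl⟩
        have h1 := hX.next h0
        have h2 := hX.next2 h0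
        rw [T.next_next_next] at h1 h2
        unfold JX
        rw [if_neg h1, if_neg h2, if_pos h0]
        exact ht
      · refine ⟨T.SameOrigin (dirD (w t).1), isVertex_sameOrigin T hT _, ?_⟩
        have h0 : T.SameOrigin (dirD (w t).1) (dirD (w t).1) := ⟨0, rfl⟩
        unfold JX
        rw [if_pos h0]
        exact ht
      · refine ⟨T.SameOrigin (T.next (dirD (w t).1)), isVertex_sameOrigin T hT _, ?_⟩
        have hX := isVertex_sameOrigin T hT (T.next (dirD (w t).1))
        have h0 : T.SameOrigin (T.next (dirD (w t).1)) (T.next (dirD (w t).1)) := ⟨0, rfl⟩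
        have h2 := hX.next2 h0
        rw [T.next_next_next] at h2
        unfold JX
        rw [if_neg h2, if_pos h0]
        exact ht
    obtain ⟨X, hX, hJ⟩ := hv
    have hlip : ∀ i, JX T m X (w (i + 1)).1 ≤ JX T m X (w i).1 + 1 ∧
        JX T m X (w i).1 ≤ JX T m X (w (i + 1)).1 + 1 := by
      intro i
      rw [JX_same hX (hw.glue i)]
      exact step_J hX (w i)
    have hfw : ∀ n i, JX T m X (w i).1 ≤ JX T m X (w (i + n)).1 + n ∧
        JX T m X (w (i + n)).1 ≤ JX T m X (w i).1 + n := by
      intro n
      induction n with
      | zero => intro i; exact ⟨le_rfl, le_rfl⟩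
      | succ n ih =>
        intro i
        have h1 := ih i
        have h2 := hlip (i + n)
        rw [show i + (n + 1) = i + n + 1 from rfl]
        omega
    apply prod_rotate k (fun i => (T.subdivide m).stepVal g (w i)) (fun i => by simp only [hw.periodic]) t
    apply value_of_JX hX g hg hw t
    intro n hn
    have h1 := (hfw n t).1
    have h2 := (hfw (k - n) (t + n)).2
    rw [show t + n + (k - n) = t + k by omega, hw.periodic] at h2
    omega
  · push Not at hbig
    have hin : ∀ t, Inner m (w t).1 := by
      intro t
      obtain ⟨h1, h2, h3⟩ := hbig t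
      have h4 := osum (w t).1
      unfold Inner
      omega
    let X : D → Prop := T.SameOrigin (dirD (w 0).1)
    have hX : IsVertex T X := isVertex_sameOrigin T hT _
    have hF : ∀ t, FX T m X (w t).1 := by
      intro t
      induction t with
      | zero => exact Or.inl ⟨0, rfl⟩
      | succ t ih =>
        have h1 := hw.glue t
        have h2 := (Inner_same h1).1 (hin (t + 1))
        rw [FX_same h1 h2, step_F]
        exact ih
    have := value_of_JX hX g hg hw 0 (fun n _ => by
      rw [zero_add]
      exact JX_of_inner (hF n) (hin n))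
    simpa only [zero_add] using this

theorem loopless_subdivide [Finite D] (T : Triangulation D) (hT : T.Loopless) (m : ℕ) :
    (T.subdivide m).Loopless := by
  classical
  intro x hx
  have hX : IsVertex T (T.SameOrigin (dirD x)) := isVertex_sameOrigin T hT _
  have h0 : T.SameOrigin (dirD x) (dirD x) := ⟨0, rfl⟩
  have h1 := hX.next h0
  have h2 := hX.next2 h0
  have e1 : (T.subdivide m).rot ((T.subdivide m).next x) = (T.subdivide m).inv x := by
    simp [Triangulation.rot, (T.subdivide m).next_next_next]
  have e2 := JX_same hX hx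
  rw [← e1, JX_rot hX] at e2
  rcases x with ⟨d, i, j, k, h⟩ | ⟨d, i, j, k, h⟩
  · change JX T m (T.SameOrigin d) (.up (T.next d) j k i (by omega) : SubDart D m) = _ at e2
    change T.SameOrigin d d at h0
    change ¬ T.SameOrigin d (T.next d) at h1
    change ¬ T.SameOrigin d (T.next (T.next d)) at h2
    simp only [JX, dirD, oa, ob, oc, T.next_next_next, h0, h1, h2, if_true, if_false] at e2
    omega
  · change JX T m (T.SameOrigin d) (.down (T.next d) j k i (by omega) : SubDart D m) = _ at e2
    change T.SameOrigin d d at h0
    change ¬ T.SameOrigin d (T.next d) at h1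
    change ¬ T.SameOrigin d (T.next (T.next d)) at h2
    simp only [JX, dirD, oa, ob, oc, T.next_next_next, h0, h1, h2, if_true, if_false] at e2
    omega

end ESub
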