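import Pool.Agent.Work.MP_a2fb93_sub.Main
import Pool.Agent.Work.MP_8a4c8e_EQ.BR1
import Pool.Agent.Work.MP_8a4c8e_EQ.BR2
import Pool.Agent.Work.MP_8a4c8e_EQ.BRC
import Pool.Agent.Work.MP_8a4c8e_EQ.BRK
set_option autoImplicit false

namespace ESub

variable {D : Type}

/-- a dart is joined to its reverse and to the two neighbouring darts at its origin -/
def cutGraph (T : Triangulation D) : SimpleGraph D where
  Adj a b := a ≠ b ∧ (b = T.inv a ∨ b = T.rot a ∨ a = T.rot b)
  symm := ⟨by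
    rintro a b ⟨h, h1 | h1 | h1⟩
    · exact ⟨h.symm, Or.inl (by rw [h1, T.inv_inv])⟩
    · exact ⟨h.symm, Or.inr (Or.inr h1)⟩
    · exact ⟨h.symm, Or.inr (Or.inl h1)⟩⟩
  loopless := ⟨fun a h => h.1 rfl⟩

/-- Brooks' theorem for this cubic graph -/
theorem exists_three [Finite D] (T : Triangulation D) (hT : T.Loopless) :
    ∃ χ : D → Fin 3, (∀ d, χ (T.inv d) ≠ χ d) ∧ ∀ d, χ (T.rot d) ≠ χ d := by
  classical
  have := Fintype.ofFinite D
  have hB : EQ52.Stmt_BRK := EQ52.stmt_BRK (EQ52.stmt_BR1 EQ52.stmt_BRC) (EQ52.stmt_BR2 EQ52.stmt_BRC)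
  -- the previous dart at the origin
  let p : D → D := (rotPerm T).symm
  have hp : ∀ d, T.rot (p d) = d := fun d => (rotPerm T).apply_symm_apply d
  have hsub : ∀ a b, (cutGraph T).Adj a b → b ∈ ({T.inv a, T.rot a, p a} : Finset D) := by
    rintro a b ⟨h, h1 | h1 | h1⟩
    · simp [h1]
    · simp [h1]
    · have : b = p a := by
        apply rot_injective T
        rw [hp, h1]
      simp [this]
  have h3 : ∀ a : D, ({T.inv a, T.rot a, p a} : Finset D).card ≤ 3 := fun a => Finset.card_le_three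
  obtain ⟨χ, hχ⟩ := hB D (cutGraph T) 3 Finset.univ le_rfl (by
    intro v _
    refine le_trans (Finset.card_le_card ?_) (h3 v)
    intro b hb
    exact hsub v b (by
      have := (Finset.mem_inter.1 hb).1
      simpa [EQ52.nb] using this)) (by
    intro B _ hB
    by_contra hcon
    push Not at hcon
    obtain ⟨a, ha⟩ : B.Nonempty := Finset.card_pos.1 (by omega)
    have h4 : B.erase a ⊆ ({T.inv a, T.rot a, p a} : Finset D) := by
      intro b hb
      rw [Finset.mem_erase] at hb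
      exact hsub a b (hB a ha b hb.2 hb.1.symm)
    have h5 : B.erase a = ({T.inv a, T.rot a, p a} : Finset D) := by
      apply Finset.eq_of_subset_of_card_le h4
      rw [Finset.card_erase_of_mem ha]
      have := h3 a
      omega
    have h6 : T.inv a ∈ B := by
      have : T.inv a ∈ B.erase a := by rw [h5]; simp
      exact Finset.mem_of_mem_erase this
    have h7 : T.rot a ∈ B := by
      have : T.rot a ∈ B.erase a := by rw [h5]; simp
      exact Finset.mem_of_mem_erase this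
    have h8 : ({T.inv a, T.rot a, p a} : Finset D).card = 3 := by
      rw [← h5, Finset.card_erase_of_mem ha]
      have := Finset.card_le_card h4
      rw [Finset.card_erase_of_mem ha] at this
      have := h3 a
      omega
    have h9 : T.inv a ≠ T.rot a := by
      intro h
      rw [h] at h8
      have : ({T.rot a, T.rot a, p a} : Finset D).card ≤ 2 := by
        rw [Finset.insert_eq_of_mem (by simp)]
        exact Finset.card_le_two
      omega
    obtain ⟨_, h10 | h10 | h10⟩ := hB _ h6 _ h7 h9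
    · rw [T.inv_inv] at h10
      exact rot_ne T hT a h10
    · exact T.inv_ne a (rot_injective T h10).symm
    · exact hT a ⟨2, h10.symm⟩)
  refine ⟨χ, fun d => ?_, fun d => ?_⟩
  · exact (hχ d (Finset.mem_univ _) _ (Finset.mem_univ _) ⟨(T.inv_ne d).symm, Or.inl rfl⟩).symm
  · exact (hχ d (Finset.mem_univ _) _ (Finset.mem_univ _) ⟨(rot_ne T hT d).symm, Or.inr (Or.inl rfl)⟩).symm

/-- the colouring for m = 3 -/
def threeCol (T : Triangulation D) (χ : D → Fin 3) (d : D) (i j k : ℕ) : Fin 3 :=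
  match i, j, k with
  | 0, _, 0 => χ d
  | 0, 0, _ => χ (T.inv d)
  | 0, _ + 1, _ + 1 => third (χ d) (χ (T.inv d))
  | 1, 0, _ => χ (T.next d)
  | 1, _ + 1, _ => χ (T.inv (T.next (T.next d)))
  | _ + 2, _, _ => third (χ (T.next (T.next d))) (χ (T.inv (T.next d)))

theorem good3 [Finite D] (T : Triangulation D) (hT : T.Loopless) : ∃ f, Good T 3 f := by
  obtain ⟨χ, h1, h2⟩ := exists_three T hT
  have r1 : ∀ d, T.rot (T.next d) = T.inv d := fun d => by simp [Triangulation.rot, T.next_next_next]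
  have e1 : ∀ d, χ (T.inv d) ≠ χ (T.next d) := by
    intro d
    have := h2 (T.next d)
    rwa [r1] at this
  refine ⟨threeCol T χ, ?_, ?_, ?_⟩
  · intro d j k h
    obtain ⟨rfl, rfl⟩ | ⟨rfl, rfl⟩ | ⟨rfl, rfl⟩ : (j = 0 ∧ k = 2) ∨ (j = 1 ∧ k = 1) ∨ (j = 2 ∧ k = 0) := by
      omega
    · rfl
    · show third (χ (T.inv d)) (χ (T.inv (T.inv d))) = third (χ d) (χ (T.inv d))
      rw [T.inv_inv, third_comm]
    · show χ (T.inv (T.inv d)) = χ d
      rw [T.inv_inv]
  · intro d i j k h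
    obtain ⟨rfl, rfl, rfl⟩ | ⟨rfl, rfl, rfl⟩ | ⟨rfl, rfl, rfl⟩ | ⟨rfl, rfl, rfl⟩ | ⟨rfl, rfl, rfl⟩ |
        ⟨rfl, rfl, rfl⟩ : (i = 0 ∧ j = 2 ∧ k = 0) ∨ (i = 0 ∧ j = 1 ∧ k = 1) ∨ (i = 0 ∧ j = 0 ∧ k = 2) ∨
        (i = 1 ∧ j = 1 ∧ k = 0) ∨ (i = 1 ∧ j = 0 ∧ k = 1) ∨ (i = 2 ∧ j = 0 ∧ k = 0) := by
      omega
    · show third (χ (T.next (T.next (T.next d)))) (χ (T.inv (T.next (T.next d)))) ≠ χ d
      rw [T.next_next_next]
      exact third_ne_left (h2 d).symm
    · show χ (T.inv (T.next (T.next (T.next d)))) ≠ third (χ d) (χ (T.inv d))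
      rw [T.next_next_next]
      exact (third_ne_right (h1 d).symm).symm
    · show χ (T.next d) ≠ χ (T.inv d)
      exact (e1 d).symm
    · show χ (T.next (T.next d)) ≠ χ (T.inv (T.next (T.next d)))
      exact (h1 _).symm
    · show third (χ (T.next d)) (χ (T.inv (T.next d))) ≠ χ (T.next d)
      exact third_ne_left (h1 _).symm
    · show χ (T.inv (T.next d)) ≠ third (χ (T.next (T.next d))) (χ (T.inv (T.next d)))
      exact (third_ne_right (e1 (T.next d)).symm).symm
  · intro d i j k h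
    obtain ⟨rfl, rfl, rfl⟩ | ⟨rfl, rfl, rfl⟩ | ⟨rfl, rfl, rfl⟩ : (i = 1 ∧ j = 0 ∧ k = 0) ∨
        (i = 0 ∧ j = 1 ∧ k = 0) ∨ (i = 0 ∧ j = 0 ∧ k = 1) := by
      omega
    · show χ (T.next (T.next d)) ≠ third (χ (T.next (T.next d))) (χ (T.inv (T.next d)))
      exact (third_ne_left (e1 (T.next d)).symm).symm
    · show third (χ (T.next (T.next (T.next d)))) (χ (T.inv (T.next (T.next d)))) ≠
        χ (T.inv (T.next (T.next d)))
      rw [T.next_next_next]
      exact third_ne_right (h2 d).symm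
    · show χ (T.inv (T.next (T.next (T.next d)))) ≠ χ (T.next d)
      rw [T.next_next_next]
      exact e1 d

/-- the dual of the m-fold edgewise subdivision is 3-edge-colourable for m = 3 and for all m at least 5 -/
theorem main_colourable [Finite D] (T : Triangulation D) (hT : T.Loopless) (m : ℕ) (hm : 3 ≤ m) (hm' : m ≠ 4) :
    (T.subdivide m).DualThreeEdgeColourable := by
  have key : ∃ f, Good T m f := by
    have h : m % 3 = 0 ∨ m % 3 = 1 ∨ m % 3 = 2 := by omega
    rcases h with h | h | h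
    · obtain ⟨k, rfl⟩ : ∃ k, m = 3 + 3 * k := ⟨(m - 3) / 3, by omega⟩
      exact good_add T 3 (by omega) (good3 T hT) k
    · obtain ⟨k, rfl⟩ : ∃ k, m = 7 + 3 * k := ⟨(m - 7) / 3, by omega⟩
      exact good_add T 7 (by omega) (good7 T hT) k
    · obtain ⟨k, rfl⟩ : ∃ k, m = 5 + 3 * k := ⟨(m - 5) / 3, by omega⟩
      exact good_add T 5 (by omega) (good5 T hT) k
  obtain ⟨f, hf⟩ := key
  exact hf.colourable

end ESub
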