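import Pool.Agent.Work.MP_a2fb93_sub.Defs
set_option autoImplicit false

/-! potentials of a flat labelling of the subdivision inside one face -/

namespace ESub

variable {D G : Type} [Group G]

/-- the label of up d i j k -/
def HH (m : ℕ) (g : SubDart D m → G) (d : D) (i j k : ℕ) : G :=
  if h : i + j + k + 1 = m then g (.up d i j k h) else 1

theorem HH_eq (m : ℕ) (g : SubDart D m → G) (d : D) (i j k : ℕ) (h : i + j + k + 1 = m) :
    HH m g d i j k = g (.up d i j k h) := by simp [HH, h]

section
variable (T : Triangulation D) (m : ℕ) (g : SubDart D m → G) (hg : IsFlat (T.subdivide m) g)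
include hg

theorem HH_up (d : D) (i j k : ℕ) (h : i + j + k + 1 = m) :
    HH m g d i j k * HH m g (T.next d) j k i * HH m g (T.next (T.next d)) k i j = 1 := by
  rw [HH_eq m g d i j k h, HH_eq m g _ j k i (by omega), HH_eq m g _ k i j (by omega)]
  exact hg.face (.up d i j k h)

theorem g_down (d : D) (i j k : ℕ) (h : i + j + k + 2 = m) :
    g (.down d i j k h) = (HH m g d (i + 1) j k)⁻¹ := by
  rw [HH_eq m g d (i + 1) j k (by omega)]
  exact hg.inv (.up d (i + 1) j k (by omega))

theorem HH_down (d : D) (i j k : ℕ) (h : i + j + k + 2 = m) :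
    (HH m g d (i + 1) j k)⁻¹ * (HH m g (T.next d) (j + 1) k i)⁻¹ *
      (HH m g (T.next (T.next d)) (k + 1) i j)⁻¹ = 1 := by
  rw [← g_down T m g hg d i j k h, ← g_down T m g hg _ j k i (by omega), ← g_down T m g hg _ k i j (by omega)]
  exact hg.face (.down d i j k h)

theorem HH_side (d : D) (j k : ℕ) (h : j + k + 1 = m) :
    HH m g (T.inv d) 0 k j = (HH m g d 0 j k)⁻¹ := by
  rw [HH_eq m g d 0 j k (by omega), HH_eq m g _ 0 k j (by omega)]
  exact hg.inv (.up d 0 j k (by omega))

end

/-- the label of a path from the origin x of d that makes k small steps along d and then i small steps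
parallel to the side from x to z -/
def PP (T : Triangulation D) (m : ℕ) (g : SubDart D m → G) (d : D) : ℕ → ℕ → G
  | 0, 0 => 1
  | 0, k + 1 => PP T m g d 0 k * HH m g d 0 (m - 1 - k) k
  | i + 1, k => PP T m g d i k * (HH m g (T.next (T.next d)) k i (m - 1 - k - i))⁻¹

section
variable (T : Triangulation D) (m : ℕ) (g : SubDart D m → G) (hg : IsFlat (T.subdivide m) g)

theorem PP_3 (d : D) (i j k : ℕ) (h : i + j + k + 1 = m) :
    PP T m g d (i + 1) k * HH m g (T.next (T.next d)) k i j = PP T m g d i k := by
  rw [PP, show m - 1 - k - i = j by omega]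
  group

include hg

theorem PP_12 (d : D) (i : ℕ) : ∀ j k, i + j + k + 1 = m →
    PP T m g d i k * HH m g d i j k = PP T m g d i (k + 1) ∧
    PP T m g d i (k + 1) * HH m g (T.next d) j k i = PP T m g d (i + 1) k := by
  have step2 : ∀ i j k, i + j + k + 1 = m → PP T m g d i k * HH m g d i j k = PP T m g d i (k + 1) →
      PP T m g d i (k + 1) * HH m g (T.next d) j k i = PP T m g d (i + 1) k := by
    intro i j k h h1
    have h2 := HH_up T m g hg d i j k h
    have h3 := PP_3 T m g d i j k h
    rw [← h1, ← h3]
    have h4 : HH m g d i j k * HH m g (T.next d) j k i = (HH m g (T.next (T.next d)) k i j)⁻¹ :=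
      eq_inv_of_mul_eq_one_left h2
    rw [mul_assoc (PP T m g d (i + 1) k * HH m g (T.next (T.next d)) k i j), h4]
    group
  induction i with
  | zero =>
    intro j k h
    have h1 : PP T m g d 0 k * HH m g d 0 j k = PP T m g d 0 (k + 1) := by
      rw [PP, show m - 1 - k = j by omega]
    exact ⟨h1, step2 0 j k h h1⟩
  | succ i ih =>
    intro j k h
    have h1 : PP T m g d (i + 1) k * HH m g d (i + 1) j k = PP T m g d (i + 1) (k + 1) := by
      have h2 := HH_down T m g hg d i j k (by omega)
      have h3 := (ih (j + 1) k (by omega)).2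
      have h4 := PP_3 T m g d i j (k + 1) (by omega)
      have h5 : HH m g d (i + 1) j k = (HH m g (T.next d) (j + 1) k i)⁻¹ *
          (HH m g (T.next (T.next d)) (k + 1) i j)⁻¹ := by
        rw [mul_assoc] at h2
        exact (inv_mul_eq_one.1 h2)
      rw [h5, ← h3, ← h4]
      group
    exact ⟨h1, step2 (i + 1) j k h h1⟩

/-- the potentials of the two faces at a side agree on this side -/
theorem PP_side (d : D) (k : ℕ) (hk : k ≤ m) : PP T m g (T.rot d) 0 k = PP T m g d k 0 := by
  induction k with
  | zero => simp only [PP]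
  | succ k ih =>
    rw [PP, PP, ih (by omega)]
    congr 1
    have := HH_side T m g hg (T.next (T.next d)) k (m - 1 - k) (by omega)
    rw [Nat.sub_zero, ← this]
    rfl

end

end ESub
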