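import Pool.Agent.Work.MP_a2fb93_sub.Patch
set_option autoImplicit false

namespace ESub

variable {D : Type}

/-- M is a perfect matching of the dual graph: a set of edges with exactly one in each face -/
structure IsMatching (T : Triangulation D) (M : D → Prop) : Prop where
  inv : ∀ d, M (T.inv d) ↔ M d
  ex : ∀ d, M d ∨ M (T.next d) ∨ M (T.next (T.next d))
  not_next : ∀ d, M d → ¬ M (T.next d)

theorem IsMatching.not_next2 {T : Triangulation D} {M : D → Prop} (h : IsMatching T M) {d : D} (hd : M d) :
    ¬ M (T.next (T.next d)) := by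
  intro h2
  apply h.not_next _ h2
  rwa [T.next_next_next]

/-- end colours for the edges outside the matching -/
structure IsEnds (T : Triangulation D) (M : D → Prop) (χ : D → Fin 3) : Prop where
  ne : ∀ d, ¬ M d → ¬ M (T.rot d) → χ d ≠ χ (T.rot d)
  before : ∀ d, M (T.rot d) → χ d ≠ 2
  after : ∀ d, M d → χ (T.rot d) ≠ 2

open Classical in
/-- the dart of the matching in the face of d -/
noncomputable def base (T : Triangulation D) (M : D → Prop) (d : D) : D :=
  if M d then d else if M (T.next (T.next d)) then T.next (T.next d) else T.next d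

open Classical in
/-- the position of d in its face, counted from the dart of the matching -/
noncomputable def pos (T : Triangulation D) (M : D → Prop) (d : D) : Fin 3 :=
  if M d then 0 else if M (T.next (T.next d)) then 1 else 2

/-- facts about the base dart -/
theorem base_cases {T : Triangulation D} {M : D → Prop} (h : IsMatching T M) (d : D) :
    M (base T M d) ∧ ((pos T M d = 0 ∧ base T M d = d ∧ M d) ∨
      (pos T M d = 1 ∧ T.next (base T M d) = d ∧ ¬ M d) ∨
      (pos T M d = 2 ∧ T.next (T.next (base T M d)) = d ∧ ¬ M d)) := by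
  unfold base pos
  by_cases h1 : M d
  · simp [h1]
  · by_cases h2 : M (T.next (T.next d))
    · simp [h1, h2, T.next_next_next]
    · have h3 : M (T.next d) := by
        rcases h.ex d with h3 | h3 | h3
        · exact absurd h3 h1
        · exact h3
        · exact absurd h3 h2
      simp [h1, h2, h3, T.next_next_next]

theorem base_next {T : Triangulation D} {M : D → Prop} (h : IsMatching T M) (d : D) :
    base T M (T.next d) = base T M d ∧ pos T M (T.next d) = pos T M d + 1 := by
  unfold base pos
  by_cases h1 : M d
  · have h2 : ¬ M (T.next d) := h.not_next d h1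
    simp [h1, h2, T.next_next_next]
  · by_cases h2 : M (T.next (T.next d))
    · have h3 : ¬ M (T.next d) := by
        intro h3
        exact h.not_next _ h3 h2
      simp [h1, h2, h3, T.next_next_next]
    · have h3 : M (T.next d) := by
        rcases h.ex d with h3 | h3 | h3
        · exact absurd h3 h1
        · exact h3
        · exact absurd h3 h2
      simp [h1, h2, h3, T.next_next_next]

open Classical in
/-- direction bit of a dart -/
noncomputable def dir (P : D → Prop) (d : D) : ℕ := if P d then 0 else 1

open Classical in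
/-- the word of a dart -/
noncomputable def word (mw : ℕ → ℕ) (nw : ℕ → ℕ → ℕ) (T : Triangulation D) (M P : D → Prop) (χ : D → Fin 3)
    (d : D) : ℕ :=
  if M d then mw (dir P d) else nw (χ d).val (χ (T.inv d)).val

/-- the certificate used in the face with the matching dart b -/
noncomputable def cert (tb : List ℕ) (T : Triangulation D) (P : D → Prop) (χ : D → Fin 3) (b : D) : ℕ :=
  tb.getD ((((dir P b * 3 + (χ (T.next b)).val) * 3 + (χ (T.inv (T.next b))).val) * 3 +
    (χ (T.next (T.next b))).val) * 3 + (χ (T.inv (T.next (T.next b)))).val) 0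

theorem good_of_table (m : ℕ) (mw : ℕ → ℕ) (nw : ℕ → ℕ → ℕ) (tb : List ℕ)
    (h1 : chkTable m mw nw tb = true) (h2 : chkRev m mw nw = true) [Finite D] (T : Triangulation D)
    (M : D → Prop) (hM : IsMatching T M) (χ : D → Fin 3) (hχ : IsEnds T M χ) :
    ∃ f, Good T m f := by
  classical
  obtain ⟨P, hP⟩ := exists_half T
  -- the end colours in a face
  have hrot1 : ∀ b, T.rot (T.next b) = T.inv b := fun b => by
    simp [Triangulation.rot, T.next_next_next]
  have hrot2 : ∀ b, T.rot (T.next (T.next b)) = T.inv (T.next b) := fun b => by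
    simp [Triangulation.rot, T.next_next_next]
  have hrot0 : ∀ b, T.rot b = T.inv (T.next (T.next b)) := fun b => rfl
  have hlt : ∀ x : Fin 3, x ≠ 2 → x.val < 2 := by decide
  have hadm : ∀ b, M b → Adm (χ (T.next b)).val (χ (T.inv (T.next b))).val (χ (T.next (T.next b))).val
      (χ (T.inv (T.next (T.next b)))).val = true := by
    intro b hb
    have e1 : χ (T.next b) ≠ 2 := by
      apply hχ.before
      rw [hrot1]
      exact (hM.inv b).2 hb
    have e2 : χ (T.inv (T.next (T.next b))) ≠ 2 := by
      rw [← hrot0]
      exact hχ.after b hb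
    have e3 : χ (T.next (T.next b)) ≠ χ (T.inv (T.next b)) := by
      rw [← hrot2]
      apply hχ.ne
      · exact hM.not_next2 hb
      · rw [hrot2, hM.inv]
        exact hM.not_next b hb
    have e4 := hlt _ e1
    have e5 := hlt _ e2
    have e6 : ¬ ((χ (T.inv (T.next b))).val = (χ (T.next (T.next b))).val) := fun h => e3 (Fin.ext h.symm)
    simp only [Adm, Bool.and_eq_true, decide_eq_true_eq, Bool.not_eq_true', beq_eq_false_iff_ne]
    exact ⟨⟨⟨⟨e4, (χ _).2⟩, (χ _).2⟩, e5⟩, e6⟩
  have hdir : ∀ b, dir P b < 2 := by
    intro b
    unfold dir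
    split_ifs <;> norm_num
  have hchk : ∀ b, M b → chk m (cert tb T P χ b) (wds mw nw (dir P b) (χ (T.next b)).val
      (χ (T.inv (T.next b))).val (χ (T.next (T.next b))).val (χ (T.inv (T.next (T.next b)))).val) = true := by
    intro b hb
    simp only [chkTable, List.all_eq_true, List.mem_range] at h1
    have := h1 (dir P b) (hdir b) _ (χ (T.next b)).2 _ (χ (T.inv (T.next b))).2 _
      (χ (T.next (T.next b))).2 _ (χ (T.inv (T.next (T.next b)))).2
    rw [hadm b hb] at this
    simp only [if_true] at this
    exact this
  -- the words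
  have hword : ∀ d, wds mw nw (dir P (base T M d)) (χ (T.next (base T M d))).val
      (χ (T.inv (T.next (base T M d)))).val (χ (T.next (T.next (base T M d)))).val
      (χ (T.inv (T.next (T.next (base T M d))))).val (pos T M d).val = word mw nw T M P χ d := by
    intro d
    obtain ⟨hb, ⟨h3, h4, h5⟩ | ⟨h3, h4, h5⟩ | ⟨h3, h4, h5⟩⟩ := base_cases hM d
    · rw [h3, h4]
      simp [wds, word, h5]
    · rw [h3, h4]
      simp [wds, word, h5]
    · rw [h3, h4]
      simp [wds, word, h5]
  have hrev : ∀ d, ∀ k < m, dg (word mw nw T M P χ (T.inv d)) (m - 1 - k) = dg (word mw nw T M P χ d) k := by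
    intro d k hk
    simp only [chkRev, Bool.and_eq_true, List.all_eq_true, List.mem_range, beq_iff_eq] at h2
    obtain ⟨h3, h4⟩ := h2
    by_cases hd : M d
    · have hd' : M (T.inv d) := (hM.inv d).2 hd
      simp only [word, hd, hd', if_true]
      by_cases hp : P d
      · have hp' : ¬ P (T.inv d) := fun h' => (hP d).1 h' hp
        simp only [dir, hp, hp', if_true, if_false]
        exact (h3 k hk).symm
      · have hp' : P (T.inv d) := (hP d).2 hp
        simp only [dir, hp, hp', if_true, if_false]
        rw [h3 (m - 1 - k) (by omega), show m - 1 - (m - 1 - k) = k by omega]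
    · have hd' : ¬ M (T.inv d) := fun h => hd ((hM.inv d).1 h)
      simp only [word, hd, hd', if_false, T.inv_inv]
      have h5 := h4 k hk (χ d).val (χ d).2 (χ (T.inv d)).val (χ (T.inv d)).2
      have h6 : ¬ ((χ d).val = 2 ∧ (χ (T.inv d)).val = 2) := by
        rintro ⟨h7, h8⟩
        have h7' : χ d = 2 := Fin.ext h7
        have h8' : χ (T.inv d) = 2 := Fin.ext h8
        obtain ⟨hb, ⟨_, _, h9⟩ | ⟨_, h9, _⟩ | ⟨_, h9, _⟩⟩ := base_cases hM d
        · exact hd h9
        · apply hχ.before d _ h7'
          rw [← h9, hrot1]
          exact (hM.inv _).2 hb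
        · have := hχ.after _ hb
          rw [hrot0, h9] at this
          exact this h8'
      simp only [h6, if_false, beq_iff_eq] at h5
      exact h5.symm
  have hpatch := fun b (hb : M b) => chk_ok m _ _ (hchk b hb)
  refine ⟨fun d i j _ => dgc (cert tb T P χ (base T M d)) (((pos T M d).val * m + i) * m + j), ?_, ?_, ?_⟩
  · intro d j k hjk
    have s1 := (hpatch _ (base_cases hM d).1).side (pos T M d) j k hjk
    have s2 := (hpatch _ (base_cases hM (T.inv d)).1).side (pos T M (T.inv d)) k j (by omega)
    rw [hword d] at s1
    rw [hword (T.inv d)] at s2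
    refine s2.trans (Eq.trans ?_ s1.symm)
    have := hrev d k (by omega)
    rw [show m - 1 - k = j by omega] at this
    exact Fin.ext this
  · intro d i j k hijk
    obtain ⟨e1, e2⟩ := base_next hM d
    show dgc (cert tb T P χ (base T M (T.next d))) (((pos T M (T.next d)).val * m + j) * m + k) ≠ _
    rw [e1, e2]
    exact (hpatch _ (base_cases hM d).1).up (pos T M d) i j k hijk
  · intro d i j k hijk
    obtain ⟨e1, e2⟩ := base_next hM d
    show dgc (cert tb T P χ (base T M (T.next d))) (((pos T M (T.next d)).val * m + (j + 1)) * m + k) ≠ _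
    rw [e1, e2]
    exact (hpatch _ (base_cases hM d).1).down (pos T M d) i j k hijk

end ESub
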