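import Pool.Agent.Work.MP_a2fb93_sub.Match
set_option autoImplicit false

namespace ESub

variable {D : Type}

theorem good5 [Finite D] (T : Triangulation D) (hT : T.Loopless) : ∃ f, Good T 5 f := by
  obtain ⟨M, hM⟩ := exists_matching T hT
  obtain ⟨χ, hχ⟩ := exists_ends T hT M
  exact good_of_table 5 mw5 nw5 tb5 table5 rev5 T M hM χ hχ

theorem good7 [Finite D] (T : Triangulation D) (hT : T.Loopless) : ∃ f, Good T 7 f := by
  obtain ⟨M, hM⟩ := exists_matching T hT
  obtain ⟨χ, hχ⟩ := exists_ends T hT M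
  exact good_of_table 7 mw7 nw7 tb7 table7 rev7 T M hM χ hχ

theorem good_add [Finite D] (T : Triangulation D) (m : ℕ) (hm : 1 ≤ m) (h : ∃ f, Good T m f) (k : ℕ) :
    ∃ f, Good T (m + 3 * k) f := by
  induction k with
  | zero => exact h
  | succ k ih =>
    obtain ⟨f, hf⟩ := ih
    exact exists_ring T (m + 3 * k) (by omega) f hf

end ESub
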