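import Pool.Agent.Work.MP_a2fb93_sub.Ends
set_option autoImplicit false

namespace ESub

variable {D : Type}

/-- A set of faces that is left through exactly one dart gives a loop. -/
theorem unique_exit [Finite D] (T : Triangulation D) (hT : T.Loopless) (S : Set D)
    (hS : ∀ d ∈ S, T.next d ∈ S) (d0 : D) (h0 : d0 ∈ S) (h1 : T.inv d0 ∉ S)
    (huniq : ∀ d ∈ S, T.inv d ∉ S → d = d0) : False := by
  classical
  have hS' : ∀ d, T.next d ∈ S → d ∈ S := by
    intro d hd
    have := hS _ (hS _ hd)
    rwa [T.next_next_next] at this
  have hstep : ∀ d, d ∉ S → T.rot d ∈ S → T.rot d = d0 := by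
    intro d hd hr
    apply huniq _ hr
    simp only [Triangulation.rot, T.inv_inv]
    intro h
    exact hd (hS' _ (hS' _ h))
  -- the rotation brings inv d0 back to next d0
  have hr : T.rot (T.next d0) = T.inv d0 := by simp [Triangulation.rot, T.next_next_next]
  have hcyc : (rotPerm T).SameCycle (T.inv d0) (T.next d0) := by
    apply Equiv.Perm.SameCycle.symm
    exact ⟨1, hr⟩
  obtain ⟨n, hn⟩ := (sameOrigin_iff T _ _).2 hcyc
  have hex : ∃ n, T.rot^[n] (T.inv d0) ∈ S := ⟨n, by rw [hn]; exact hS _ h0⟩
  have hfind := Nat.find_spec hex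
  rcases hk : Nat.find hex with _ | k
  · rw [hk] at hfind
    exact h1 hfind
  · rw [hk, Function.iterate_succ_apply'] at hfind
    have hnot : T.rot^[k] (T.inv d0) ∉ S := fun h => by
      have := Nat.find_min' hex h
      omega
    have h2 := hstep _ hnot hfind
    apply hT d0
    rw [sameOrigin_iff]
    apply Equiv.Perm.SameCycle.symm
    rw [← sameOrigin_iff]
    exact ⟨k + 1, by rw [Function.iterate_succ_apply']; exact h2⟩

/-- darts of the same face -/
def faceSetoid (T : Triangulation D) : Setoid D where
  r a b := b = a ∨ b = T.next a ∨ b = T.next (T.next a)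
  iseqv := by
    constructor
    · intro a; exact Or.inl rfl
    · intro a b h
      rcases h with rfl | rfl | rfl
      · exact Or.inl rfl
      · exact Or.inr (Or.inr (by rw [T.next_next_next]))
      · exact Or.inr (Or.inl (by rw [T.next_next_next]))
    · intro a b c h h'
      rcases h with rfl | rfl | rfl <;> rcases h' with rfl | rfl | rfl <;> simp [T.next_next_next]

/-- the faces -/
def Face (T : Triangulation D) : Type := Quotient (faceSetoid T)

instance [Finite D] (T : Triangulation D) : Finite (Face T) := by
  unfold Face; infer_instance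

/-- the face of a dart -/
def face (T : Triangulation D) (d : D) : Face T := Quotient.mk (faceSetoid T) d

theorem face_eq_iff (T : Triangulation D) (a b : D) :
    face T a = face T b ↔ b = a ∨ b = T.next a ∨ b = T.next (T.next a) :=
  ⟨fun h => Quotient.exact h, fun h => Quotient.sound h⟩

theorem face_next (T : Triangulation D) (a : D) : face T (T.next a) = face T a :=
  ((face_eq_iff T a (T.next a)).2 (Or.inr (Or.inl rfl))).symm

theorem exists_face (T : Triangulation D) (v : Face T) : ∃ d, face T d = v := Quotient.exists_rep v

/-- the dual graph, as a simple graph -/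
def dual (T : Triangulation D) : SimpleGraph (Face T) where
  Adj p q := p ≠ q ∧ ∃ d, face T d = p ∧ face T (T.inv d) = q
  symm := ⟨by
    rintro p q ⟨h, d, h1, h2⟩
    exact ⟨h.symm, T.inv d, h2, by rw [T.inv_inv]; exact h1⟩⟩
  loopless := ⟨fun p h => h.1 rfl⟩

open Classical in
theorem card_darts [Fintype D] (T : Triangulation D) [Fintype (Face T)] (X : Finset (Face T)) :
    (Finset.univ.filter (fun e => face T e ∈ X)).card = 3 * X.card := by
  have hmaps : ((Finset.univ.filter (fun e => face T e ∈ X) : Finset D) : Set D).MapsTo (face T) X := by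
    intro e he
    have := (Finset.mem_filter.1 (Finset.mem_coe.1 he)).2
    exact this
  rw [Finset.card_eq_sum_card_fiberwise hmaps]
  rw [Finset.sum_const_nat (m := 3), mul_comm]
  intro v hv
  obtain ⟨d, rfl⟩ := exists_face T v
  have hset : (Finset.univ.filter (fun e => face T e ∈ X)).filter (fun e => face T e = face T d) =
      {d, T.next d, T.next (T.next d)} := by
    ext e
    simp only [Finset.mem_filter, Finset.mem_univ, true_and, Finset.mem_insert, Finset.mem_singleton]
    constructor
    · rintro ⟨_, h⟩
      exact (face_eq_iff T d e).1 h.symm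
    · intro h
      have h2 := ((face_eq_iff T d e).2 h).symm
      exact ⟨by rw [h2]; exact hv, h2⟩
  rw [hset]
  have n1 : d ≠ T.next d := (T.next_ne d).symm
  have n2 : T.next d ≠ T.next (T.next d) := (T.next_ne _).symm
  have n3 : d ≠ T.next (T.next d) := by
    intro h
    have := T.next_ne (T.next (T.next d))
    rw [T.next_next_next] at this
    exact this h
  rw [Finset.card_insert_of_notMem, Finset.card_insert_of_notMem, Finset.card_singleton]
  · simpa using n2
  · simp only [Finset.mem_insert, Finset.mem_singleton, not_or]
    exact ⟨n1, n3⟩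

/-- a finite set with a fixed point free involution has an even number of elements -/
theorem even_of_involution (T : Triangulation D) (S : Finset D)
    (hS : ∀ d ∈ S, T.inv d ∈ S) : Even S.card := by
  classical
  have h : ∑ d ∈ S, (1 : ZMod 2) = 0 := by
    apply Finset.sum_involution (fun d _ => T.inv d)
    · intro d hd
      decide
    · intro d hd _
      exact T.inv_ne d
    · intro d hd
      exact hS d hd
    · intro d hd
      exact T.inv_inv d
  rw [Finset.sum_const, nsmul_eq_mul, mul_one] at h
  exact (ZMod.natCast_eq_zero_iff_even).1 h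

open Classical in
/-- A set of faces of odd size that is left only through darts whose other side is in u has at least
three such darts. -/
theorem three_exits [Fintype D] (T : Triangulation D) [Fintype (Face T)] (hT : T.Loopless)
    (X : Finset (Face T)) (hX : Odd X.card) :
    3 ≤ (Finset.univ.filter (fun e => face T e ∈ X ∧ face T (T.inv e) ∉ X)).card := by
  set S := Finset.univ.filter (fun e => face T e ∈ X) with hS
  set L := Finset.univ.filter (fun e => face T e ∈ X ∧ face T (T.inv e) ∉ X) with hL
  have hLS : L ⊆ S := by
    intro e he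
    rw [hL, Finset.mem_filter] at he
    rw [hS, Finset.mem_filter]
    exact ⟨he.1, he.2.1⟩
  have hcard : S.card = 3 * X.card := card_darts T X
  have heven : Even (S \ L).card := by
    apply even_of_involution T
    intro d hd
    rw [Finset.mem_sdiff, hS, hL, Finset.mem_filter, Finset.mem_filter] at hd
    rw [Finset.mem_sdiff, hS, hL, Finset.mem_filter, Finset.mem_filter, T.inv_inv]
    have h1 := hd.1.2
    have h2 : face T (T.inv d) ∈ X := by
      by_contra h
      exact hd.2 ⟨Finset.mem_univ _, h1, h⟩
    exact ⟨⟨Finset.mem_univ _, h2⟩, fun h => h.2.2 h1⟩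
  have hodd : Odd L.card := by
    have h1 : (S \ L).card + L.card = S.card := Finset.card_sdiff_add_card_eq_card hLS
    have h2 : Odd S.card := by
      rw [hcard]
      exact Odd.mul (by decide) hX
    rw [← h1] at h2
    by_contra h3
    rw [Nat.not_odd_iff_even] at h3
    exact (Nat.not_odd_iff_even.2 (heven.add h3)) h2
  have hne : L.card ≠ 1 := by
    intro h1
    obtain ⟨d0, hd0⟩ := Finset.card_eq_one.1 h1
    have hmem : d0 ∈ L := by rw [hd0]; exact Finset.mem_singleton_self _
    rw [hL, Finset.mem_filter] at hmem
    refine unique_exit T hT {e | face T e ∈ X} ?_ d0 hmem.2.1 hmem.2.2 ?_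
    · intro d hd
      show face T (T.next d) ∈ X
      rw [face_next]
      exact hd
    · intro d hd hd'
      have : d ∈ L := by
        rw [hL, Finset.mem_filter]
        exact ⟨Finset.mem_univ _, hd, hd'⟩
      rw [hd0] at this
      exact Finset.mem_singleton.1 this
  obtain ⟨k, hk⟩ := hodd
  omega

theorem no_violator [Finite D] (T : Triangulation D) (hT : T.Loopless) (u : Set (Face T)) :
    ¬ (dual T).IsTutteViolator u := by
  classical
  have := Fintype.ofFinite D
  have := Fintype.ofFinite (Face T)
  intro hu
  unfold SimpleGraph.IsTutteViolator at hu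
  set G' := ((⊤ : (dual T).Subgraph).deleteVerts u).coe with hG'
  -- the set of faces of a component
  let X : G'.ConnectedComponent → Finset (Face T) := fun c =>
    Finset.univ.filter (fun v => ∃ h : v ∈ ((⊤ : (dual T).Subgraph).deleteVerts u).verts,
      G'.connectedComponentMk ⟨v, h⟩ = c)
  have hXcard : ∀ c, (X c).card = c.supp.ncard := by
    intro c
    rw [← Set.ncard_coe_finset]
    symm
    apply Set.ncard_congr
      (fun (v : ↥((⊤ : (dual T).Subgraph).deleteVerts u).verts) _ => (v : Face T))
    · rintro ⟨v, hv⟩ hvc
      simp only [X, Finset.coe_filter, Finset.mem_univ, true_and, Set.mem_ofPred_eq]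
      exact ⟨hv, hvc⟩
    · rintro ⟨v, hv⟩ ⟨w, hw⟩ _ _ h
      exact Subtype.ext h
    · intro v hv
      simp only [X, Finset.coe_filter, Finset.mem_univ, true_and, Set.mem_ofPred_eq] at hv
      obtain ⟨h, hc⟩ := hv
      exact ⟨⟨v, h⟩, hc, rfl⟩
  -- darts that leave a component end in u
  have hleave : ∀ c e, face T e ∈ X c → face T (T.inv e) ∉ X c → face T (T.inv e) ∈ u := by
    intro c e h1 h2
    by_contra h3
    apply h2
    simp only [X, Finset.mem_filter, Finset.mem_univ, true_and] at h1 ⊢
    obtain ⟨hv, hc⟩ := h1
    have hw : face T (T.inv e) ∈ ((⊤ : (dual T).Subgraph).deleteVerts u).verts := by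
      simp [h3]
    refine ⟨hw, ?_⟩
    rw [← hc]
    by_cases heq : face T e = face T (T.inv e)
    · congr 1
      exact Subtype.ext heq.symm
    · apply SimpleGraph.ConnectedComponent.sound
      apply SimpleGraph.Adj.reachable
      rw [hG', SimpleGraph.Subgraph.coe_adj, SimpleGraph.Subgraph.deleteVerts_adj]
      have hv' : face T e ∉ u := by
        simpa using hv
      refine ⟨trivial, h3, trivial, hv', ?_⟩
      rw [SimpleGraph.Subgraph.top_adj]
      exact ⟨fun h => heq h.symm, T.inv e, rfl, by rw [T.inv_inv]⟩
  -- counting
  let U : Finset (Face T) := Finset.univ.filter (fun v => v ∈ u)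
  let A : Finset D := Finset.univ.filter (fun e => face T e ∈ U)
  have hA : A.card = 3 * u.ncard := by
    rw [card_darts T U]
    congr 1
    rw [← Set.ncard_coe_finset]
    congr 1
    ext v
    simp [U]
  have : Fintype G'.ConnectedComponent := Fintype.ofFinite _
  let O : Finset G'.ConnectedComponent := Finset.univ.filter (fun c => Odd c.supp.ncard)
  have hO : O.card = G'.oddComponents.ncard := by
    rw [← Set.ncard_coe_finset]
    congr 1
    ext c
    simp [O, SimpleGraph.oddComponents]
  let L : G'.ConnectedComponent → Finset D := fun c =>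
    Finset.univ.filter (fun e => face T (T.inv e) ∈ X c ∧ face T e ∉ X c)
  have hL3 : ∀ c ∈ O, 3 ≤ (L c).card := by
    intro c hc
    have hodd : Odd (X c).card := by
      rw [hXcard]
      exact (Finset.mem_filter.1 hc).2
    refine le_trans (three_exits T hT (X c) hodd) ?_
    apply Finset.card_le_card_of_injOn T.inv
    · intro e he
      simp only [Finset.coe_filter, Finset.mem_univ, true_and, Set.mem_ofPred_eq, L, T.inv_inv] at he ⊢
      exact he
    · intro a _ b _ h
      have := congrArg T.inv h
      simpa [T.inv_inv] using this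
  have hLA : ∀ c, L c ⊆ A := by
    intro c e he
    simp only [L, Finset.mem_filter, Finset.mem_univ, true_and] at he
    have := hleave c (T.inv e) he.1 (by rw [T.inv_inv]; exact he.2)
    rw [T.inv_inv] at this
    simp only [A, U, Finset.mem_filter, Finset.mem_univ, true_and]
    exact this
  have hdisj : ∀ c ∈ O, ∀ c' ∈ O, c ≠ c' → Disjoint (L c) (L c') := by
    intro c _ c' _ hcc
    rw [Finset.disjoint_left]
    intro e h1 h2
    simp only [L, X, Finset.mem_filter, Finset.mem_univ, true_and] at h1 h2
    obtain ⟨⟨h3, h4⟩, _⟩ := h1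
    obtain ⟨⟨h5, h6⟩, _⟩ := h2
    exact hcc (h4.symm.trans h6)
  have hsum : ∑ c ∈ O, (L c).card ≤ A.card := by
    rw [← Finset.card_biUnion hdisj]
    apply Finset.card_le_card
    intro e he
    rw [Finset.mem_biUnion] at he
    obtain ⟨c, _, hc⟩ := he
    exact hLA c hc
  have h3 : 3 * O.card ≤ ∑ c ∈ O, (L c).card := by
    have := Finset.card_nsmul_le_sum O (fun c => (L c).card) 3 hL3
    simpa [mul_comm] using this
  rw [hA] at hsum
  rw [hO] at h3
  omega

/-- Petersen's theorem for the dual graph -/
theorem exists_matching [Finite D] (T : Triangulation D) (hT : T.Loopless) :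
    ∃ M, IsMatching T M := by
  classical
  obtain ⟨M', hM'⟩ := (SimpleGraph.tutte (G := dual T)).2 (no_violator T hT)
  obtain ⟨hm, hspan⟩ := hM'
  have hmate : ∀ v : Face T, ∃! w, M'.Adj v w := fun v => hm (hspan v)
  choose mate hmate1 hmate2 using hmate
  have hmate2' : ∀ v w, M'.Adj v w → w = mate v := fun v w h => hmate2 v w h
  have hmm : ∀ v, mate (mate v) = v := fun v => (hmate2' _ _ (hmate1 v).symm).symm
  have hch : ∀ v : Face T, ∃ d, face T d = v ∧ face T (T.inv d) = mate v := by
    intro v
    exact (M'.adj_sub (hmate1 v)).2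
  choose ch hch1 hch2 using hch
  have hne : ∀ v, v ≠ mate v := fun v => (M'.adj_sub (hmate1 v)).1
  obtain ⟨n, hn⟩ := exists_injective_nat (Face T)
  let M : D → Prop := fun d => face T (T.inv d) = mate (face T d) ∧
    (if n (face T d) < n (face T (T.inv d)) then d = ch (face T d) else T.inv d = ch (face T (T.inv d)))
  have huniq : ∀ d e, M d → M e → face T d = face T e → d = e := by
    rintro d e ⟨h1, h2⟩ ⟨h3, h4⟩ h5
    have h6 : face T (T.inv d) = face T (T.inv e) := by rw [h1, h3, h5]
    rw [h5, h6] at h2
    by_cases h7 : n (face T e) < n (face T (T.inv e))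
    · rw [if_pos h7] at h2 h4
      exact h2.trans h4.symm
    · rw [if_neg h7] at h2 h4
      have := congrArg T.inv (h2.trans h4.symm)
      simpa [T.inv_inv] using this
  refine ⟨M, ?_, ?_, ?_⟩
  · -- invariance
    have himp : ∀ d, M d → M (T.inv d) := by
      rintro d ⟨h1, h2⟩
      have h3 : face T d ≠ face T (T.inv d) := by rw [h1]; exact hne _
      have h4 : n (face T d) ≠ n (face T (T.inv d)) := fun h => h3 (hn h)
      refine ⟨?_, ?_⟩
      · rw [T.inv_inv, h1, hmm]
      · rw [T.inv_inv]
        by_cases h5 : n (face T d) < n (face T (T.inv d))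
        · rw [if_pos h5] at h2
          rw [if_neg (by omega)]
          exact h2
        · rw [if_neg h5] at h2
          rw [if_pos (by omega)]
          exact h2
    intro d
    constructor
    · intro h
      have := himp _ h
      rwa [T.inv_inv] at this
    · exact himp d
  · -- existence
    intro d
    have key : ∃ e, M e ∧ face T e = face T d := by
      by_cases h : n (face T d) < n (mate (face T d))
      · refine ⟨ch (face T d), ⟨?_, ?_⟩, hch1 _⟩
        · rw [hch2, hch1]
        · rw [hch2, hch1, if_pos h]
      · have h3 : n (face T d) ≠ n (mate (face T d)) := fun h' => hne _ (hn h')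
        refine ⟨T.inv (ch (mate (face T d))), ⟨?_, ?_⟩, ?_⟩
        · rw [T.inv_inv, hch1, hch2, hmm]
        · rw [T.inv_inv, hch1, hch2, hmm, if_neg h]
        · rw [hch2, hmm]
    obtain ⟨e, he, hf⟩ := key
    rcases (face_eq_iff T d e).1 hf.symm with h | h | h
    · exact Or.inl (h ▸ he)
    · exact Or.inr (Or.inl (h ▸ he))
    · exact Or.inr (Or.inr (h ▸ he))
  · intro d hd hd'
    have := huniq _ _ hd hd' (face_next T d).symm
    exact T.next_ne d this.symm

end ESub
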