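import Pool.Agent.Work.MP_a2fb93_sub.Tables
set_option autoImplicit false

namespace ESub

/-- a colouring p of the small sides in one face, with the words w 0, w 1, w 2 on the three sides -/
structure PatchOK (m : ℕ) (p : Fin 3 → ℕ → ℕ → ℕ → Fin 3) (w : Fin 3 → ℕ → Fin 3) : Prop where
  side : ∀ c j k, j + k + 1 = m → p c 0 j k = w c k
  up : ∀ c i j k, i + j + k + 1 = m → p (c + 1) j k i ≠ p c i j k
  down : ∀ c i j k, i + j + k + 2 = m → p (c + 1) (j + 1) k i ≠ p c (i + 1) j k

/-- a digit in base 3 -/
def dg (N x : ℕ) : ℕ := N / 3 ^ x % 3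

/-- a digit in base 3, as a colour -/
def dgc (N x : ℕ) : Fin 3 := ⟨N / 3 ^ x % 3, Nat.mod_lt _ (by norm_num)⟩

/-- check of a certificate at one place -/
def chk1 (m N : ℕ) (w : ℕ → ℕ) (c i j : ℕ) : Bool :=
  if i + j < m then
    let k := m - 1 - i - j
    let v := dg N ((c * m + i) * m + j)
    let c' := if c = 2 then 0 else c + 1
    (!(v == dg N ((c' * m + j) * m + k))) &&
      (if i = 0 then v == dg (w c) k
        else !(v == dg N ((c' * m + (j + 1)) * m + k)))
  else true

/-- check of a certificate -/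
def chk (m N : ℕ) (w : ℕ → ℕ) : Bool :=
  (List.range 3).all fun c => (List.range m).all fun i => (List.range m).all fun j => chk1 m N w c i j

theorem chk_ok (m N : ℕ) (w : ℕ → ℕ) (h : chk m N w = true) :
    PatchOK m (fun c i j _ => dgc N ((c.val * m + i) * m + j)) (fun c k => dgc (w c.val) k) := by
  have h1 : ∀ c < 3, ∀ i < m, ∀ j < m, chk1 m N w c i j = true := by
    intro c hc i hi j hj
    simp only [chk, List.all_eq_true, List.mem_range] at h
    exact h c hc i hi j hj
  have hv : ∀ c : Fin 3, (if c.val = 2 then 0 else c.val + 1) = (c + 1).val := by decide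
  constructor
  · intro c j k hjk
    have h2 := h1 c.val c.2 0 (by omega) j (by omega)
    have h3 : 0 + j < m := by omega
    simp only [chk1, h3, if_true, Bool.and_eq_true, Bool.not_eq_true', beq_eq_false_iff_ne, beq_iff_eq] at h2
    have h4 := h2.2
    rw [show m - 1 - 0 - j = k by omega] at h4
    exact Fin.ext h4
  · intro c i j k hijk
    have h2 := h1 c.val c.2 i (by omega) j (by omega)
    have h3 : i + j < m := by omega
    simp only [chk1, h3, if_true, Bool.and_eq_true, Bool.not_eq_true', beq_eq_false_iff_ne] at h2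
    have h4 := h2.1
    rw [hv c, show m - 1 - i - j = k by omega] at h4
    intro h5
    exact h4 (Fin.ext_iff.1 h5).symm
  · intro c i j k hijk
    have h2 := h1 c.val c.2 (i + 1) (by omega) j (by omega)
    have h3 : i + 1 + j < m := by omega
    have h6 : ¬ (i + 1 = 0) := by omega
    simp only [chk1, h3, h6, if_true, if_false, Bool.and_eq_true, Bool.not_eq_true', beq_eq_false_iff_ne] at h2
    have h4 := h2.2
    rw [hv c, show m - 1 - (i + 1) - j = k by omega] at h4
    intro h5
    exact h4 (Fin.ext_iff.1 h5).symm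

/-- admissible end colours: a1 b1 on the side after the matching side, a2 b2 on the side after that one -/
def Adm (a1 b1 a2 b2 : ℕ) : Bool := (a1 < 2) && (b1 < 3) && (a2 < 3) && (b2 < 2) && (!(b1 == a2))

/-- the words on the three sides -/
def wds (mw : ℕ → ℕ) (nw : ℕ → ℕ → ℕ) (d a1 b1 a2 b2 : ℕ) (c : ℕ) : ℕ :=
  match c with
  | 0 => mw d
  | 1 => nw a1 b1
  | _ => nw a2 b2

/-- check of a table -/
def chkTable (m : ℕ) (mw : ℕ → ℕ) (nw : ℕ → ℕ → ℕ) (tb : List ℕ) : Bool :=
  (List.range 2).all fun d => (List.range 3).all fun a1 => (List.range 3).all fun b1 =>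
    (List.range 3).all fun a2 => (List.range 3).all fun b2 =>
      if Adm a1 b1 a2 b2 then
        chk m (tb.getD ((((d * 3 + a1) * 3 + b1) * 3 + a2) * 3 + b2) 0) (wds mw nw d a1 b1 a2 b2)
      else true

set_option maxRecDepth 100000 in
theorem table5 : chkTable 5 mw5 nw5 tb5 = true := by decide +kernel

set_option maxRecDepth 100000 in
theorem table7 : chkTable 7 mw7 nw7 tb7 = true := by decide +kernel

/-- reversed words -/
def chkRev (m : ℕ) (mw : ℕ → ℕ) (nw : ℕ → ℕ → ℕ) : Bool :=
  ((List.range m).all fun k => dg (mw 0) k == dg (mw 1) (m - 1 - k)) &&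
  ((List.range m).all fun k => (List.range 3).all fun a => (List.range 3).all fun b =>
    if a = 2 ∧ b = 2 then true else dg (nw a b) k == dg (nw b a) (m - 1 - k))

theorem rev5 : chkRev 5 mw5 nw5 = true := by decide +kernel
theorem rev7 : chkRev 7 mw7 nw7 = true := by decide +kernel

end ESub
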