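import Pool.Agent.Work.MP_a2fb93_sub.Defs
set_option autoImplicit false

namespace ESub

variable {D : Type}

/-- the three conditions of a colouring of the edges of the subdivision, written for the up sides -/
structure Good (T : Triangulation D) (m : ℕ) (f : D → ℕ → ℕ → ℕ → Fin 3) : Prop where
  side : ∀ d j k, j + k + 1 = m → f (T.inv d) 0 k j = f d 0 j k
  up : ∀ d i j k, i + j + k + 1 = m → f (T.next d) j k i ≠ f d i j k
  down : ∀ d i j k, i + j + k + 2 = m → f (T.next d) (j + 1) k i ≠ f d (i + 1) j k

theorem Good.colourable {T : Triangulation D} {m : ℕ} {f : D → ℕ → ℕ → ℕ → Fin 3} (h : Good T m f) :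
    (T.subdivide m).DualThreeEdgeColourable := by
  let c : SubDart D m → Fin 3 := fun x => match x with
    | .up d i j k _ => f d i j k
    | .down d i j k _ => f d (i + 1) j k
  have hc : ∀ x, c ((T.subdivide m).next x) ≠ c x := by
    rintro (⟨d, i, j, k, e⟩ | ⟨d, i, j, k, e⟩)
    · exact h.up d i j k e
    · exact h.down d i j k e
  refine ⟨c, ?_, ?_⟩
  · rintro (⟨d, i, j, k, e⟩ | ⟨d, i, j, k, e⟩)
    · cases i with
      | zero => exact h.side d j k (by omega)
      | succ i => rfl
    · rfl
  · intro x
    refine ⟨(hc x).symm, ?_, (hc _).symm⟩
    have := hc ((T.subdivide m).next ((T.subdivide m).next x))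
    rw [(T.subdivide m).next_next_next] at this
    exact this

/-- the third colour -/
def third (a b : Fin 3) : Fin 3 := -(a + b)

theorem third_comm (a b : Fin 3) : third a b = third b a := by revert a b; decide
theorem third_ne_left {a b : Fin 3} (h : a ≠ b) : third a b ≠ a := by revert a b; decide
theorem third_ne_right {a b : Fin 3} (h : a ≠ b) : third a b ≠ b := by revert a b; decide

/-- a colour different from a and b -/
def pick (a b : Fin 3) : Fin 3 := if a = b then a + 1 else third a b

theorem pick_ne_left (a b : Fin 3) : pick a b ≠ a := by revert a b; decide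
theorem pick_ne_right (a b : Fin 3) : pick a b ≠ b := by revert a b; decide

/-- even-numbered edges of the ring along a side with inner word t -/
def evens (t : ℕ → Fin 3) : ℕ → Fin 3
  | 0 => t 0
  | l + 1 => third (pick (evens t l) (t l)) (t l)

/-- A walk along a side: e l, o l (l = 0 .. m) are the colours of the edges of the ring. -/
structure IsWalk (m : ℕ) (t e o : ℕ → Fin 3) : Prop where
  first : e 0 = t 0
  last : o m = t (m - 1)
  ne : ∀ l ≤ m, o l ≠ e l
  ot : ∀ l < m, o l ≠ t l
  et : ∀ l < m, e (l + 1) ≠ t l
  oe : ∀ l < m, o l ≠ e (l + 1)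

theorem exists_walk (m : ℕ) (hm : 1 ≤ m) (t : ℕ → Fin 3) : ∃ e o, IsWalk m t e o := by
  refine ⟨evens t, fun l => if l = m then t (m - 1) else pick (evens t l) (t l), ?_, ?_, ?_, ?_, ?_, ?_⟩
  · rfl
  · simp
  · intro l hl
    by_cases h : l = m
    · subst h
      obtain ⟨n, rfl⟩ : ∃ n, l = n + 1 := ⟨l - 1, by omega⟩
      simp only [if_true, Nat.add_sub_cancel]
      exact (third_ne_right (pick_ne_right _ _)).symm
    · simp only [h, if_false]
      exact pick_ne_left _ _
  · intro l hl
    have h : l ≠ m := by omega
    simp only [h, if_false]
    exact pick_ne_right _ _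
  · intro l hl
    exact third_ne_right (pick_ne_right _ _)
  · intro l hl
    have h : l ≠ m := by omega
    simp only [h, if_false]
    exact (third_ne_left (pick_ne_right _ _)).symm

theorem IsWalk.rev {m : ℕ} {t e o : ℕ → Fin 3} (h : IsWalk m t e o) (hm : 1 ≤ m) {t' : ℕ → Fin 3}
    (ht : ∀ l < m, t' l = t (m - 1 - l)) :
    IsWalk m t' (fun l => o (m - l)) (fun l => e (m - l)) := by
  constructor
  · show o (m - 0) = t' 0
    rw [ht 0 (by omega), Nat.sub_zero, Nat.sub_zero, h.last]
  · show e (m - m) = t' (m - 1)
    rw [ht _ (by omega), Nat.sub_self, Nat.sub_self, h.first]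
  · intro l hl
    exact (h.ne (m - l) (by omega)).symm
  · intro l hl
    show e (m - l) ≠ t' l
    rw [ht l hl, show m - l = (m - 1 - l) + 1 by omega]
    exact h.et _ (by omega)
  · intro l hl
    show o (m - (l + 1)) ≠ t' l
    rw [ht l hl, show m - (l + 1) = m - 1 - l by omega]
    exact h.ot _ (by omega)
  · intro l hl
    show e (m - l) ≠ o (m - (l + 1))
    rw [show m - (l + 1) = m - 1 - l by omega, show m - l = (m - 1 - l) + 1 by omega]
    exact (h.oe _ (by omega)).symm

/-- half of the darts, one of each edge -/
theorem exists_half [Finite D] (T : Triangulation D) : ∃ P : D → Prop, ∀ d, P (T.inv d) ↔ ¬ P d := by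
  obtain ⟨e, he⟩ := exists_injective_nat D
  refine ⟨fun d => e d < e (T.inv d), fun d => ?_⟩
  simp only [T.inv_inv]
  have : e d ≠ e (T.inv d) := fun h => T.inv_ne d (he h).symm
  omega

/-- the word on the side d after a ring has been added -/
def outer (m : ℕ) (e o : ℕ → Fin 3) (k : ℕ) : Fin 3 :=
  match k with
  | 0 => e 0
  | k + 1 => if k = m + 1 then o m else third (e k) (o k)

/-- the colouring after a ring has been added -/
def ringed (T : Triangulation D) (m : ℕ) (f : D → ℕ → ℕ → ℕ → Fin 3) (e o : D → ℕ → Fin 3)
    (d : D) (i j k : ℕ) : Fin 3 :=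
  match i, j, k with
  | 0, _, k => outer m (e d) (o d) k
  | _ + 1, 0, 0 => third (o (T.next d) m) (e (T.next (T.next d)) 0)
  | i + 1, 0, _ + 1 => e (T.next d) i
  | _ + 1, j + 1, 0 => o (T.next (T.next d)) j
  | i + 1, j + 1, k + 1 => f d i j k

theorem exists_ring [Finite D] (T : Triangulation D) (m : ℕ) (hm : 1 ≤ m) (f : D → ℕ → ℕ → ℕ → Fin 3)
    (hf : Good T m f) : ∃ f', Good T (m + 3) f' := by
  classical
  obtain ⟨P, hP⟩ := exists_half T
  -- the inner words
  let t : D → ℕ → Fin 3 := fun d l => f d 0 (m - 1 - l) l
  have ht : ∀ d, ∀ l < m, t (T.inv d) l = t d (m - 1 - l) := by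
    intro d l hl
    show f (T.inv d) 0 (m - 1 - l) l = f d 0 (m - 1 - (m - 1 - l)) (m - 1 - l)
    rw [hf.side d l (m - 1 - l) (by omega), show m - 1 - (m - 1 - l) = l by omega]
  choose E O hEO using fun d => exists_walk m hm (t d)
  let e : D → ℕ → Fin 3 := fun d => if P d then E d else fun l => O (T.inv d) (m - l)
  let o : D → ℕ → Fin 3 := fun d => if P d then O d else fun l => E (T.inv d) (m - l)
  have hw : ∀ d, IsWalk m (t d) (e d) (o d) := by
    intro d
    by_cases h : P d
    · simp only [e, o, h, if_true]
      exact hEO d
    · simp only [e, o, h, if_false]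
      refine (hEO (T.inv d)).rev hm ?_
      intro l hl
      have := ht (T.inv d) l hl
      rwa [T.inv_inv] at this
  have hinv : ∀ d, ∀ l ≤ m, e (T.inv d) l = o d (m - l) ∧ o (T.inv d) l = e d (m - l) := by
    intro d l hl
    by_cases h : P d
    · have h' : ¬ P (T.inv d) := fun h' => (hP d).1 h' h
      simp only [e, o, h, h', if_true, if_false, T.inv_inv]
      exact ⟨trivial, trivial⟩
    · have h' : P (T.inv d) := (hP d).2 h
      simp only [e, o, h, h', if_true, if_false]
      rw [show m - (m - l) = l by omega]
      exact ⟨rfl, rfl⟩
  -- the corner condition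
  have hcor : ∀ d, e (T.next d) 0 ≠ o d m := by
    intro d
    rw [(hw (T.next d)).first, (hw d).last]
    have := hf.up d 0 0 (m - 1) (by omega)
    simpa [t] using this
  refine ⟨ringed T m f e o, ?_, ?_, ?_⟩
  · -- side
    intro d j k hjk
    show outer m (e (T.inv d)) (o (T.inv d)) j = outer m (e d) (o d) k
    rcases j with _ | j
    · obtain rfl : k = m + 2 := by omega
      simp only [outer, if_true]
      rw [(hinv d 0 (by omega)).1, Nat.sub_zero]
    · rcases k with _ | k
      · obtain rfl : j = m + 1 := by omega
        simp only [outer, if_true]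
        rw [(hinv d m le_rfl).2, Nat.sub_self]
      · have h1 : j ≠ m + 1 := by omega
        have h2 : k ≠ m + 1 := by omega
        simp only [outer, h1, h2, if_false]
        rw [(hinv d j (by omega)).1, (hinv d j (by omega)).2, show m - j = k by omega, third_comm]
  · -- up
    intro d i j k hijk
    rcases i with _ | i
    · rcases j with _ | j
      · obtain rfl : k = m + 2 := by omega
        show outer m (e (T.next d)) (o (T.next d)) 0 ≠ outer m (e d) (o d) (m + 2)
        simp only [outer, if_true]
        exact hcor d
      · rcases k with _ | k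
        · show third (o (T.next (T.next d)) m) (e (T.next (T.next (T.next d))) 0) ≠
            outer m (e d) (o d) 0
          rw [T.next_next_next]
          have := hcor (T.next (T.next d))
          rw [T.next_next_next] at this
          exact third_ne_right this.symm
        · show o (T.next (T.next (T.next d))) k ≠ outer m (e d) (o d) (k + 1)
          rw [T.next_next_next]
          have h2 : k ≠ m + 1 := by omega
          simp only [outer, h2, if_false]
          exact (third_ne_right ((hw d).ne k (by omega)).symm).symm
    · rcases j with _ | j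
      · rcases k with _ | k
        · obtain rfl : i = m + 1 := by omega
          show outer m (e (T.next d)) (o (T.next d)) (m + 2) ≠
            third (o (T.next d) m) (e (T.next (T.next d)) 0)
          simp only [outer, if_true]
          exact (third_ne_left (hcor (T.next d)).symm).symm
        · show outer m (e (T.next d)) (o (T.next d)) (i + 1) ≠ e (T.next d) i
          have h2 : i ≠ m + 1 := by omega
          simp only [outer, h2, if_false]
          exact third_ne_left ((hw _).ne i (by omega)).symm
      · rcases k with _ | k
        · show e (T.next (T.next d)) j ≠ o (T.next (T.next d)) j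
          exact ((hw _).ne j (by omega)).symm
        · show f (T.next d) j k i ≠ f d i j k
          exact hf.up d i j k (by omega)
  · -- down
    intro d i j k hijk
    rcases i with _ | i
    · rcases j with _ | j
      · obtain rfl : k = m + 1 := by omega
        show o (T.next (T.next (T.next d))) m ≠ e (T.next d) 0
        rw [T.next_next_next]
        exact (hcor d).symm
      · rcases k with _ | k
        · obtain rfl : j = m := by omega
          show third (o (T.next (T.next d)) j) (e (T.next (T.next (T.next d))) 0) ≠
            o (T.next (T.next d)) j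
          exact third_ne_left (hcor _).symm
        · show o (T.next (T.next (T.next d))) k ≠ f d 0 j k
          rw [T.next_next_next]
          have := (hw d).ot k (by omega)
          simp only [t] at this
          rwa [show m - 1 - k = j by omega] at this
    · rcases j with _ | j
      · rcases k with _ | k
        · obtain rfl : i = m := by omega
          show e (T.next (T.next d)) 0 ≠ third (o (T.next d) i) (e (T.next (T.next d)) 0)
          exact (third_ne_right (hcor _).symm).symm
        · show f (T.next d) 0 k i ≠ e (T.next d) (i + 1)
          have := (hw (T.next d)).et i (by omega)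
          simp only [t] at this
          rw [show m - 1 - i = k by omega] at this
          exact this.symm
      · rcases k with _ | k
        · show e (T.next (T.next d)) (j + 1) ≠ o (T.next (T.next d)) j
          exact ((hw _).oe j (by omega)).symm
        · show f (T.next d) (j + 1) k i ≠ f d (i + 1) j k
          exact hf.down d i j k (by omega)

end ESub
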