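import Pool.Agent.Work.MP_a2fb93_sub.Flat
set_option autoImplicit false

namespace ESub

variable {D G : Type} [Group G]

/-- the dart parallel to a small dart -/
def dirD {m : ℕ} : SubDart D m → D
  | .up d _ _ _ _ => d
  | .down d _ _ _ _ => d

/-- coordinates of the origin of a small dart, for the corners z, x, y of the face -/
def oa {m : ℕ} : SubDart D m → ℕ
  | .up _ i _ _ _ => i
  | .down _ i _ _ _ => i + 1
def ob {m : ℕ} : SubDart D m → ℕ
  | .up _ _ j _ _ => j + 1
  | .down _ _ j _ _ => j
def oc {m : ℕ} : SubDart D m → ℕ
  | .up _ _ _ k _ => k
  | .down _ _ _ k _ => k + 1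

theorem osum {m : ℕ} (x : SubDart D m) : oa x + ob x + oc x = m := by
  rcases x with ⟨d, i, j, k, h⟩ | ⟨d, i, j, k, h⟩ <;> simp only [oa, ob, oc] <;> omega

/-- X is a set of darts with a common origin (or empty), in a triangulation without loops -/
structure IsVertex (T : Triangulation D) (X : D → Prop) : Prop where
  rot : ∀ e, X (T.rot e) ↔ X e
  inv : ∀ e, X e → ¬ X (T.inv e)

theorem IsVertex.next {T : Triangulation D} {X : D → Prop} (h : IsVertex T X) {e : D} (he : X e) :
    ¬ X (T.next e) := by
  intro h1
  have h2 : T.rot (T.next e) = T.inv e := by simp [Triangulation.rot, T.next_next_next]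
  rw [← h.rot, h2] at h1
  exact h.inv e he h1

theorem IsVertex.next2 {T : Triangulation D} {X : D → Prop} (h : IsVertex T X) {e : D} (he : X e) :
    ¬ X (T.next (T.next e)) := by
  intro h1
  have := h.next h1
  rw [T.next_next_next] at this
  exact this he

section
variable (T : Triangulation D) (m : ℕ) (X : D → Prop)

open Classical in
/-- the coordinate of the origin of a small dart for the vertex X (0 when the face does not have this corner) -/
noncomputable def JX (x : SubDart D m) : ℕ :=
  if X (dirD x) then ob x else if X (T.next (dirD x)) then oc x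
    else if X (T.next (T.next (dirD x))) then oa x else 0

open Classical in
/-- the potential of the origin of a small dart, for paths from the vertex X -/
noncomputable def QX (g : SubDart D m → G) (x : SubDart D m) : G :=
  if X (dirD x) then PP T m g (dirD x) (oa x) (oc x)
    else if X (T.next (dirD x)) then PP T m g (T.next (dirD x)) (ob x) (oa x)
    else PP T m g (T.next (T.next (dirD x))) (oc x) (ob x)

/-- the face has the corner X -/
def FX (x : SubDart D m) : Prop :=
  X (dirD x) ∨ X (T.next (dirD x)) ∨ X (T.next (T.next (dirD x)))

/-- the origin is inside the face -/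
def Inner (x : SubDart D m) : Prop := 1 ≤ oa x ∧ 1 ≤ ob x ∧ 1 ≤ oc x

variable {T m X}

theorem FX_of_JX {x : SubDart D m} (h : 1 ≤ JX T m X x) : FX T m X x := by
  unfold JX at h
  unfold FX
  by_contra hcon
  push Not at hcon
  rw [if_neg hcon.1, if_neg hcon.2.1, if_neg hcon.2.2] at h
  omega

theorem JX_of_inner {x : SubDart D m} (h : FX T m X x) (hi : Inner m x) : 1 ≤ JX T m X x := by
  unfold JX
  obtain ⟨h1, h2, h3⟩ := hi
  split_ifs with h4 h5 h6
  · exact h2
  · exact h3
  · exact h1
  · rcases h with h | h | h
    · exact absurd h h4
    · exact absurd h h5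
    · exact absurd h h6

theorem FX_next (x : SubDart D m) : FX T m X ((T.subdivide m).next x) ↔ FX T m X x := by
  have h : dirD ((T.subdivide m).next x) = T.next (dirD x) := by
    rcases x with ⟨d, i, j, k, h⟩ | ⟨d, i, j, k, h⟩ <;> rfl
  unfold FX
  rw [h, T.next_next_next]
  tauto

theorem Inner_rot (x : SubDart D m) : Inner m ((T.subdivide m).rot x) ↔ Inner m x := by
  rcases x with ⟨d, i, j, k, h⟩ | ⟨d, i, j, k, h⟩
  · rcases k with _ | k
    · show Inner m (.up (T.inv (T.next (T.next d))) 0 j i (by omega) : SubDart D m) ↔ _
      simp [Inner, oa, ob, oc]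
    · show Inner m (.down (T.next (T.next d)) k i j (by omega) : SubDart D m) ↔ _
      simp [Inner, oa, ob, oc]
  · show Inner m (.up (T.next (T.next d)) (k + 1) i j (by omega) : SubDart D m) ↔ _
    simp [Inner, oa, ob, oc]

theorem FX_rot (x : SubDart D m) (hx : Inner m x) : FX T m X ((T.subdivide m).rot x) ↔ FX T m X x := by
  rcases x with ⟨d, i, j, k, h⟩ | ⟨d, i, j, k, h⟩
  · rcases k with _ | k
    · simp [Inner, oa, ob, oc] at hx
    · show FX T m X (.down (T.next (T.next d)) k i j (by omega) : SubDart D m) ↔ _
      simp only [FX, dirD, T.next_next_next]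
      tauto
  · show FX T m X (.up (T.next (T.next d)) (k + 1) i j (by omega) : SubDart D m) ↔ _
    simp only [FX, dirD, T.next_next_next]
    tauto

theorem JX_rot (hX : IsVertex T X) (x : SubDart D m) : JX T m X ((T.subdivide m).rot x) = JX T m X x := by
  classical
  rcases x with ⟨d, i, j, k, h⟩ | ⟨d, i, j, k, h⟩
  · rcases k with _ | k
    · show JX T m X (.up (T.rot d) 0 j i (by omega) : SubDart D m) = _
      have e1 : X (T.next (T.rot d)) ↔ X (T.next (T.next d)) := by
        rw [← hX.rot (T.next (T.rot d))]
        have : T.rot (T.next (T.rot d)) = T.next (T.next d) := by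
          simp [Triangulation.rot, T.next_next_next, T.inv_inv]
        rw [this]
      simp only [JX, dirD, oa, ob, oc, hX.rot d, e1]
      by_cases h4 : X (T.next (T.next (T.rot d)))
      · by_cases h1 : X d
        · simp [h1]
        · by_cases h2 : X (T.next d)
          · have h3 : ¬ X (T.next (T.next d)) := hX.next h2
            simp [h1, h2, h3, h4]
          · by_cases h3 : X (T.next (T.next d)) <;> simp [h1, h2, h3, h4]
      · by_cases h1 : X d
        · simp [h1]
        · by_cases h2 : X (T.next d)
          · have h3 : ¬ X (T.next (T.next d)) := hX.next h2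
            simp [h1, h2, h3, h4]
          · by_cases h3 : X (T.next (T.next d)) <;> simp [h1, h2, h3, h4]
    · show JX T m X (.down (T.next (T.next d)) k i j (by omega) : SubDart D m) = _
      simp only [JX, dirD, oa, ob, oc, T.next_next_next]
      by_cases h1 : X d
      · have h2 := hX.next h1
        have h3 := hX.next2 h1
        simp [h1, h2, h3]
      · by_cases h2 : X (T.next d)
        · have h3 := hX.next h2
          simp [h1, h2, h3]
        · by_cases h3 : X (T.next (T.next d)) <;> simp [h1, h2, h3]
  · show JX T m X (.up (T.next (T.next d)) (k + 1) i j (by omega) : SubDart D m) = _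
    simp only [JX, dirD, oa, ob, oc, T.next_next_next]
    by_cases h1 : X d
    · have h2 := hX.next h1
      have h3 := hX.next2 h1
      simp [h1, h2, h3]
    · by_cases h2 : X (T.next d)
      · have h3 := hX.next h2
        simp [h1, h2, h3]
      · by_cases h3 : X (T.next (T.next d)) <;> simp [h1, h2, h3]

theorem QX_rot (hX : IsVertex T X) (g : SubDart D m → G) (hg : IsFlat (T.subdivide m) g) (x : SubDart D m)
    (hx : 1 ≤ JX T m X x) : QX T m X g ((T.subdivide m).rot x) = QX T m X g x := by
  classical
  have hF := FX_of_JX hx
  rcases x with ⟨d, i, j, k, h⟩ | ⟨d, i, j, k, h⟩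
  · rcases k with _ | k
    · show QX T m X g (.up (T.rot d) 0 j i (by omega) : SubDart D m) = _
      have e0 : T.rot (T.next (T.rot d)) = T.next (T.next d) := by
        simp [Triangulation.rot, T.next_next_next, T.inv_inv]
      have e1 : X (T.next (T.rot d)) ↔ X (T.next (T.next d)) := by
        rw [← hX.rot (T.next (T.rot d)), e0]
      simp only [QX, dirD, oa, ob, oc, hX.rot d, e1]
      by_cases h1 : X d
      · simp only [h1, if_true]
        exact PP_side T m g hg d i (by omega)
      · have h2 : ¬ X (T.next d) := by
          intro h2
          simp [JX, dirD, oc, h1, h2] at hx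
        have h3 : X (T.next (T.next d)) := by
          rcases hF with h3 | h3 | h3
          · exact absurd h3 h1
          · exact absurd h3 h2
          · exact h3
        simp only [h1, h2, h3, if_true, if_false]
        have := PP_side T m g hg (T.next (T.rot d)) (j + 1) (by omega)
        rw [e0] at this
        exact this.symm
    · show QX T m X g (.down (T.next (T.next d)) k i j (by omega) : SubDart D m) = _
      simp only [QX, dirD, oa, ob, oc, T.next_next_next]
      by_cases h1 : X d
      · have h2 := hX.next h1
        have h3 := hX.next2 h1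
        simp [h1, h3]
      · by_cases h2 : X (T.next d)
        · have h3 := hX.next h2
          simp [h1, h2, h3]
        · have h3 : X (T.next (T.next d)) := by
            rcases hF with h3 | h3 | h3
            · exact absurd h3 h1
            · exact absurd h3 h2
            · exact h3
          simp [h1, h2, h3]
  · show QX T m X g (.up (T.next (T.next d)) (k + 1) i j (by omega) : SubDart D m) = _
    simp only [QX, dirD, oa, ob, oc, T.next_next_next]
    by_cases h1 : X d
    · have h2 := hX.next h1
      have h3 := hX.next2 h1
      simp [h1, h3]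
    · by_cases h2 : X (T.next d)
      · have h3 := hX.next h2
        simp [h1, h2, h3]
      · have h3 : X (T.next (T.next d)) := by
          rcases hF with h3 | h3 | h3
          · exact absurd h3 h1
          · exact absurd h3 h2
          · exact h3
        simp [h1, h2, h3]

theorem QX_next (hX : IsVertex T X) (g : SubDart D m → G) (hg : IsFlat (T.subdivide m) g) (x : SubDart D m)
    (hF : FX T m X x) : QX T m X g ((T.subdivide m).next x) = QX T m X g x * g x := by
  classical
  rcases x with ⟨d, i, j, k, h⟩ | ⟨d, i, j, k, h⟩
  · show QX T m X g (.up (T.next d) j k i (by omega) : SubDart D m) = _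
    rw [← HH_eq m g d i j k h]
    simp only [QX, dirD, oa, ob, oc, T.next_next_next]
    by_cases h1 : X d
    · have h2 := hX.next h1
      have h3 := hX.next2 h1
      simp only [h1, h2, h3, if_true, if_false]
      exact ((PP_12 T m g hg d i j k h).1).symm
    · by_cases h2 : X (T.next d)
      · have h3 := hX.next h2
        simp only [h1, h2, if_true, if_false]
        have := PP_3 T m g (T.next d) j k i (by omega)
        rw [T.next_next_next] at this
        exact this.symm
      · have h3 : X (T.next (T.next d)) := by
          rcases hF with h3 | h3 | h3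
          · exact absurd h3 h1
          · exact absurd h3 h2
          · exact h3
        simp only [h1, h2, h3, if_true, if_false]
        have := (PP_12 T m g hg (T.next (T.next d)) k i j (by omega)).2
        rw [T.next_next_next] at this
        exact this.symm
  · show QX T m X g (.down (T.next d) j k i (by omega) : SubDart D m) = _
    rw [g_down T m g hg d i j k h]
    simp only [QX, dirD, oa, ob, oc, T.next_next_next]
    by_cases h1 : X d
    · have h2 := hX.next h1
      have h3 := hX.next2 h1
      simp only [h1, h2, h3, if_true, if_false]
      have := (PP_12 T m g hg d (i + 1) j k (by omega)).1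
      rw [← this]
      group
    · by_cases h2 : X (T.next d)
      · have h3 := hX.next h2
        simp only [h1, h2, if_true, if_false]
        have := PP_3 T m g (T.next d) j k (i + 1) (by omega)
        rw [T.next_next_next] at this
        rw [← this]
        group
      · have h3 : X (T.next (T.next d)) := by
          rcases hF with h3 | h3 | h3
          · exact absurd h3 h1
          · exact absurd h3 h2
          · exact h3
        simp only [h1, h2, h3, if_true, if_false]
        have := (PP_12 T m g hg (T.next (T.next d)) k (i + 1) j (by omega)).2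
        rw [T.next_next_next] at this
        rw [← this]
        group

theorem JX_next (hX : IsVertex T X) (x : SubDart D m) :
    JX T m X ((T.subdivide m).next x) ≤ JX T m X x + 1 ∧ JX T m X x ≤ JX T m X ((T.subdivide m).next x) + 1 ∧
    JX T m X ((T.subdivide m).next ((T.subdivide m).next x)) ≤ JX T m X x + 1 ∧
    JX T m X x ≤ JX T m X ((T.subdivide m).next ((T.subdivide m).next x)) + 1 := by
  classical
  rcases x with ⟨d, i, j, k, h⟩ | ⟨d, i, j, k, h⟩
  · show JX T m X (.up (T.next d) j k i (by omega) : SubDart D m) ≤ _ ∧
      _ ≤ JX T m X (.up (T.next d) j k i (by omega) : SubDart D m) + 1 ∧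
      JX T m X (.up (T.next (T.next d)) k i j (by omega) : SubDart D m) ≤ _ ∧
      _ ≤ JX T m X (.up (T.next (T.next d)) k i j (by omega) : SubDart D m) + 1
    simp only [JX, dirD, oa, ob, oc, T.next_next_next]
    by_cases h1 : X d
    · have h2 := hX.next h1
      have h3 := hX.next2 h1
      simp [h1, h2, h3] <;> omega
    · by_cases h2 : X (T.next d)
      · have h3 := hX.next h2
        simp [h1, h2, h3] <;> omega
      · by_cases h3 : X (T.next (T.next d)) <;> simp [h1, h2, h3] <;> omega
  · show JX T m X (.down (T.next d) j k i (by omega) : SubDart D m) ≤ _ ∧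
      _ ≤ JX T m X (.down (T.next d) j k i (by omega) : SubDart D m) + 1 ∧
      JX T m X (.down (T.next (T.next d)) k i j (by omega) : SubDart D m) ≤ _ ∧
      _ ≤ JX T m X (.down (T.next (T.next d)) k i j (by omega) : SubDart D m) + 1
    simp only [JX, dirD, oa, ob, oc, T.next_next_next]
    by_cases h1 : X d
    · have h2 := hX.next h1
      have h3 := hX.next2 h1
      simp [h1, h2, h3] <;> omega
    · by_cases h2 : X (T.next d)
      · have h3 := hX.next h2
        simp [h1, h2, h3] <;> omega
      · by_cases h3 : X (T.next (T.next d)) <;> simp [h1, h2, h3] <;> omega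

end

end ESub
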